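import Mathlib

open Filter Topology Set Metric
open scoped ContDiff

namespace Pool.Agent.H.MP_611141_gt

variable {F G : Type*} [NormedAddCommGroup F] [NormedSpace ℝ F] [NormedAddCommGroup G]
  [NormedSpace ℝ G]

/-- curves on the symmetric unit interval -/
abbrev B (F : Type*) [TopologicalSpace F] := C(Icc (-1 : ℝ) 1, F)

/-- pointwise application of a curve of operators -/
noncomputable def app : B (F →L[ℝ] G) →L[ℝ] B F →L[ℝ] B G :=
  LinearMap.mkContinuous₂ (LinearMap.mk₂ ℝ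
    (fun (A : B (F →L[ℝ] G)) (h : B F) => (⟨fun s => A s (h s), by fun_prop⟩ : B G))
    (fun _ _ _ => by ext; simp) (fun _ _ _ => by ext; simp) (fun _ _ _ => by ext; simp)
    (fun _ _ _ => by ext; simp)) 1 fun A h => (ContinuousMap.norm_le _ (by positivity)).2 fun s => by
      simpa using (A s).le_of_opNorm_le_of_le (A.norm_coe_le_norm s) (h.norm_coe_le_norm s)

theorem nem_deriv [FiniteDimensional ℝ F] {V : F → G} (hV : ContDiff ℝ 1 V) (α : B F) :
    HasFDerivAt (fun β : B F => (⟨V, hV.continuous⟩ : C(F, G)).comp β)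
      (app ((⟨fderiv ℝ V, hV.continuous_fderiv one_ne_zero⟩ : C(F, F →L[ℝ] G)).comp α)) α := by
  rw [hasFDerivAt_iff_isLittleO, Asymptotics.isLittleO_iff]
  intro c hc
  obtain ⟨δ, δ0, hδ⟩ := Metric.uniformContinuousOn_iff.1 ((isCompact_closedBall (0 : F)
    (‖α‖ + 1)).uniformContinuousOn_of_continuous (hV.continuous_fderiv one_ne_zero).continuousOn) c hc
  filter_upwards [ball_mem_nhds α (lt_min δ0 one_pos)] with β hβ
  refine (ContinuousMap.norm_le _ (by positivity)).2 fun s => ?_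
  have h1 : ‖β s - α s‖ ≤ ‖β - α‖ := (β - α).norm_coe_le_norm s
  have h2 := α.norm_coe_le_norm s
  rw [mem_ball_iff_norm] at hβ
  refine ((convex_ball (α s) (min δ 1)).norm_image_sub_le_of_norm_hasFDerivWithin_le'
    (f := V) (f' := fderiv ℝ V) (φ := fderiv ℝ V (α s)) (C := c) (fun x _ =>
      (hV.differentiable one_ne_zero x).hasFDerivAt.hasFDerivWithinAt) (fun x hx => ?_)
    (mem_ball_self (lt_min δ0 one_pos)) (mem_ball_iff_norm.2 (h1.trans_lt hβ))).trans (by gcongr)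
  rw [← dist_eq_norm]
  have h3 := norm_le_norm_add_norm_sub' x (α s)
  have h4 := (mem_ball_iff_norm.1 hx).trans_le (min_le_right _ _)
  exact (hδ x (mem_closedBall_zero_iff.2 (by linarith)) (α s)
    (mem_closedBall_zero_iff.2 (by linarith)) ((mem_ball.1 hx).trans_le (min_le_left _ _))).le

theorem nem_one [FiniteDimensional ℝ F] {V : F → G} (hV : ContDiff ℝ 1 V) :
    ContDiff ℝ 1 (fun β : B F => (⟨V, hV.continuous⟩ : C(F, G)).comp β) :=
  contDiff_one_iff_hasFDerivAt.2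
    ⟨_, app.continuous.comp (ContinuousMap.continuous_postcomp _), nem_deriv hV⟩

theorem nem_two [FiniteDimensional ℝ F] {V : F → G} (hV : ContDiff ℝ 2 V) :
    ContDiff ℝ 2 (fun β : B F => (⟨V, hV.continuous⟩ : C(F, G)).comp β) :=
  (contDiff_succ_iff_hasFDerivAt (n := 1)).2 ⟨_, app.contDiff.comp (nem_one
    (hV.fderiv_right (m := 1) le_rfl)), fun α => by exact nem_deriv (hV.of_le one_le_two) α⟩

/-- extension of a curve to the whole line -/
noncomputable def ex (α : B F) (r : ℝ) : F := α (projIcc (-1) 1 (by norm_num) r)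

theorem ex_cont (α : B F) : Continuous (ex α) := α.continuous.comp continuous_projIcc

theorem ex_mem (α : B F) {r : ℝ} (h : r ∈ Icc (-1 : ℝ) 1) : ex α r = α ⟨r, h⟩ := by
  rw [ex, projIcc_of_mem]

/-- the integration operator -/
noncomputable def Jop [CompleteSpace F] : B F →L[ℝ] B F :=
  LinearMap.mkContinuous
    { toFun := fun α => ⟨fun s => ∫ r in (0 : ℝ)..s, ex α r, (intervalIntegral.continuous_primitive
        (fun _ _ => (ex_cont α).intervalIntegrable _ _) 0).comp continuous_subtype_val⟩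
      map_add' := fun α β => ContinuousMap.ext fun s =>
        intervalIntegral.integral_add ((ex_cont α).intervalIntegrable _ _)
          ((ex_cont β).intervalIntegrable _ _)
      map_smul' := fun c α => ContinuousMap.ext fun s => intervalIntegral.integral_smul c (ex α) } 1
    fun α => (ContinuousMap.norm_le _ (by positivity)).2 fun s => by
      refine (intervalIntegral.norm_integral_le_of_norm_le_const (C := ‖α‖)
        fun r _ => α.norm_coe_le_norm _).trans ?_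
      rw [sub_zero, mul_comm]
      gcongr
      exact abs_le.2 s.2

theorem ex_deriv [CompleteSpace F] {α β : B F} {x : F} {τ : ℝ}
    (h : α - τ • Jop β = ContinuousMap.const _ x) :
    ex α 0 = x ∧ ContinuousOn (ex α) (Icc (-1) 1) ∧
      ∀ s ∈ Ioo (-1 : ℝ) 1, HasDerivAt (ex α) (τ • ex β s) s := by
  have e : ∀ s ∈ Icc (-1 : ℝ) 1, ex α s = x + τ • ∫ r in (0 : ℝ)..s, ex β r := fun s hs => by
    rw [ex_mem α hs, eq_add_of_sub_eq h]
    rfl
  refine ⟨by simpa using e 0 (by norm_num), (ex_cont α).continuousOn, fun s hs => ?_⟩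
  refine ((((ex_cont β).integral_hasStrictDerivAt 0 s).hasDerivAt.const_smul τ).const_add
    x).congr_of_eventuallyEq ?_
  filter_upwards [Icc_mem_nhds hs.1 hs.2] with r hr using e r hr

theorem flow_global [FiniteDimensional ℝ F] {V : F → F} (hV : ContDiff ℝ 2 V) {K : NNReal}
    (hL : LipschitzWith K V) (p : F) : ∃ ε > 0, ∃ Φ : F × ℝ → F, ∀ x ∈ ball p ε,
      ∀ t ∈ Ioo (-ε) ε, Φ (x, 0) = x ∧ ContDiffAt ℝ 2 Φ (x, t) ∧
        HasDerivAt (fun s => Φ (x, s)) (V (Φ (x, t))) t := by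
  have := FiniteDimensional.complete ℝ F
  let N : B F → B F := fun β => (⟨V, hV.continuous⟩ : C(F, F)).comp β
  have cN : ContDiff ℝ 2 N := nem_two hV
  let cst : F →L[ℝ] B F := ContinuousLinearMap.const ℝ _
  let Ξ : ℝ × B F → ℝ × B F := fun y => (y.1, y.2 - y.1 • Jop (N y.2))
  have cJ : ContDiff ℝ 2 fun y : ℝ × B F => Jop (N y.2) :=
    Jop.contDiff.comp (cN.comp contDiff_snd)
  have cΞ : ContDiff ℝ 2 Ξ := contDiff_fst.prodMk (contDiff_snd.sub (contDiff_fst.smul cJ))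
  let w : B F := Jop (N (cst p))
  let D : (ℝ × B F) ≃L[ℝ] (ℝ × B F) := ContinuousLinearEquiv.equivOfInverse
    ((ContinuousLinearMap.fst ℝ ℝ (B F)).prod (ContinuousLinearMap.snd ℝ ℝ (B F) -
      (ContinuousLinearMap.fst ℝ ℝ (B F)).smulRight w))
    ((ContinuousLinearMap.fst ℝ ℝ (B F)).prod (ContinuousLinearMap.snd ℝ ℝ (B F) +
      (ContinuousLinearMap.fst ℝ ℝ (B F)).smulRight w)) (fun y => by simp) (fun y => by simp)
  have dΞ : HasFDerivAt Ξ (D : ℝ × B F →L[ℝ] ℝ × B F) (0, cst p) := by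
    have h1 := (cJ.differentiable two_ne_zero ((0 : ℝ), cst p)).hasFDerivAt
    refine (hasFDerivAt_fst.prodMk (hasFDerivAt_snd.sub
      (hasFDerivAt_fst.smul h1))).congr_fderiv ?_
    ext1 <;> ext1 <;> simp [D, w]
  let Λ := cΞ.contDiffAt.localInverse dΞ two_ne_zero
  have Ξ0 : Ξ (0, cst p) = (0, cst p) := by simp [Ξ]
  have l1 : ∀ᶠ y in 𝓝 ((0 : ℝ), cst p), Ξ (Λ y) = y :=
    Ξ0 ▸ (cΞ.contDiffAt.hasStrictFDerivAt' dΞ two_ne_zero).eventually_right_inverse
  have l2 : ∀ᶠ y in 𝓝 ((0 : ℝ), cst p), ContDiffAt ℝ 2 Λ y :=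
    Ξ0 ▸ (cΞ.contDiffAt.to_localInverse dΞ two_ne_zero).eventually (by simp)
  let ι : F × ℝ → ℝ × B F := fun y => (y.2, cst y.1)
  have cι : ContDiff ℝ 2 ι := contDiff_snd.prodMk (cst.contDiff.comp contDiff_fst)
  obtain ⟨ε, ε0, hε⟩ := eventually_nhds_iff_ball.1 ((cι.continuous.tendsto (p, 0)).eventually
    (l1.and l2))
  let A : F × ℝ → B F := fun y => (Λ (ι y)).2
  have hA : ∀ x ∈ ball p ε, ∀ τ ∈ Ioo (-ε) ε, A (x, τ) - τ • Jop (N (A (x, τ))) = cst x ∧
      ContDiffAt ℝ 2 A (x, τ) := fun x hx τ hτ => by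
    obtain ⟨a, b⟩ := hε (x, τ) (by
      rw [← ball_prod_same]; exact ⟨hx, by simpa [Real.ball_eq_Ioo] using hτ⟩)
    have a1 : (Λ (ι (x, τ))).1 = τ := congrArg Prod.fst a
    have a2 := congrArg Prod.snd a
    simp only [Ξ, a1] at a2
    exact ⟨a2, (b.comp _ cι.contDiffAt).snd⟩
  have hid : ∀ x ∈ ball p ε, ∀ τ ∈ Ioo 0 ε, ∀ t ∈ Ioo (-τ) τ,
      ex (A (x, t)) 1 = ex (A (x, τ)) (t / τ) := fun x hx τ hτ t ht => by
    obtain ⟨a1, a2, a3⟩ := ex_deriv (hA x hx t ⟨by linarith [ht.1, hτ.2], ht.2.trans hτ.2⟩).1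
    obtain ⟨b1, -, b3⟩ := ex_deriv (hA x hx τ ⟨by linarith [hτ.1], hτ.2⟩).1
    have := ODE_solution_unique_of_mem_Icc (v := fun _ u => t • V u) (s := fun _ => univ)
      (g := fun s => ex (A (x, τ)) (t / τ * s)) (t₀ := 0)
      (fun _ _ => ((lipschitzWith_smul t).comp hL).lipschitzOnWith) (by norm_num) a2 a3
      (fun _ _ => trivial) ((ex_cont _).comp (by fun_prop)).continuousOn (fun s hs => by
        have m : t / τ * s ∈ Ioo (-1 : ℝ) 1 := abs_lt.1 (by
          rw [abs_mul]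
          exact mul_lt_one_of_nonneg_of_lt_one_right ((abs_div t τ).trans_le (by
            rw [abs_of_pos hτ.1, div_le_one hτ.1]; exact (abs_lt.2 ht).le)) (abs_nonneg _)
            (abs_lt.2 hs))
        refine ((b3 _ m).scomp s ((hasDerivAt_id s).const_mul (t / τ))).congr_deriv ?_
        rw [mul_one, smul_smul, div_mul_cancel₀ _ hτ.1.ne']
        rfl) (fun _ _ => trivial) (by simp [a1, b1]) (right_mem_Icc.2 (by norm_num))
    simpa using this
  let ev : B F →L[ℝ] F := ContinuousMap.evalCLM ℝ (projIcc (-1) 1 (by norm_num) 1)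
  refine ⟨ε, ε0, fun y => ex (A y) 1, fun x hx t ht =>
    ⟨?_, ev.contDiff.contDiffAt.comp _ (hA x hx t ht).2, ?_⟩⟩
  · have := (hA x hx 0 ⟨by linarith, ε0⟩).1
    simp only [zero_smul, sub_zero] at this
    simp only [this]
    rfl
  obtain ⟨τ, h1, h2⟩ := exists_between (abs_lt.2 ht)
  have hτ : τ ∈ Ioo 0 ε := ⟨(abs_nonneg t).trans_lt h1, h2⟩
  have hτ' : τ ∈ Ioo (-ε) ε := ⟨by linarith [hτ.1], h2⟩
  have m : t / τ ∈ Ioo (-1 : ℝ) 1 := abs_lt.1 (by
    rwa [abs_div, abs_of_pos hτ.1, div_lt_one hτ.1])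
  have ev1 : ∀ᶠ s in 𝓝 t, s ∈ Ioo (-τ) τ := Ioo_mem_nhds (abs_lt.1 h1).1 (abs_lt.1 h1).2
  obtain ⟨-, -, b3⟩ := ex_deriv (hA x hx τ hτ').1
  refine (((b3 _ m).scomp t ((hasDerivAt_id t).div_const τ)).congr_of_eventuallyEq
    (ev1.mono fun s hs => hid x hx τ hτ s hs)).congr_deriv ?_
  beta_reduce
  rw [smul_smul, one_div, inv_mul_cancel₀ hτ.1.ne', one_smul, hid x hx τ hτ t (abs_lt.1 h1)]
  rfl

theorem flow [FiniteDimensional ℝ F] {V : F → F} {W : Set F} (hW : IsOpen W)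
    (hV : ContDiffOn ℝ 2 V W) {p : F} (hp : p ∈ W) : ∃ ε > 0, ∃ Φ : F × ℝ → F, ∀ x ∈ ball p ε,
      ∀ t ∈ Ioo (-ε) ε, Φ (x, t) ∈ W ∧ Φ (x, 0) = x ∧ ContDiffAt ℝ 2 Φ (x, t) ∧
        HasDerivAt (fun s => Φ (x, s)) (V (Φ (x, t))) t := by
  obtain ⟨r, r0, hr⟩ := nhds_basis_closedBall.mem_iff.1 (hW.mem_nhds hp)
  let f : ContDiffBump p := ⟨r / 2, r, by positivity, by linarith⟩
  have c : ContDiff ℝ 2 fun x => f x • V x := contDiff_iff_contDiffAt.2 fun x => by
    by_cases hx : x ∈ W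
    · exact f.contDiff.contDiffAt.smul (hV.contDiffAt (hW.mem_nhds hx))
    · refine (contDiffAt_const (c := 0)).congr_of_eventuallyEq ?_
      filter_upwards [isClosed_closedBall.isOpen_compl.mem_nhds fun h => hx (hr h)] with y hy
      rw [f.zero_of_le_dist (not_lt.1 fun h => hy (le_of_lt h)), zero_smul]
  obtain ⟨K, hK⟩ := c.lipschitzWith_of_hasCompactSupport f.hasCompactSupport.smul_right two_ne_zero
  obtain ⟨ε, ε0, Φ, h⟩ := flow_global c hK p
  obtain ⟨h0, h1, -⟩ := h p (mem_ball_self ε0) 0 ⟨by linarith, ε0⟩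
  obtain ⟨δ, δ0, hδ⟩ := eventually_nhds_iff_ball.1 (h1.continuousAt.eventually
    (p := fun y => y ∈ ball p (r / 2)) (by rw [h0]; exact ball_mem_nhds p (by positivity)))
  refine ⟨min ε δ, lt_min ε0 δ0, Φ, fun x hx t ht => ?_⟩
  have a1 := abs_lt.2 ht
  obtain ⟨b0, b1, b2⟩ := h x (ball_subset_ball (min_le_left _ _) hx) t
    (abs_lt.1 (a1.trans_le (min_le_left _ _)))
  have m := hδ (x, t) (by
    rw [← ball_prod_same]
    exact ⟨ball_subset_ball (min_le_right _ _) hx, by simpa using a1.trans_le (min_le_right _ _)⟩)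
  rw [f.one_of_mem_closedBall (ball_subset_closedBall m), one_smul] at b2
  exact ⟨hr (ball_subset_closedBall (ball_subset_ball (by linarith) m)), b0, b1, b2⟩

/-- existence for a time depending only on the sup bound -/
theorem pl [FiniteDimensional ℝ F] {V : F → F} {p : F} {δ L : ℝ} (δ0 : 0 < δ) (L0 : 0 < L)
    (hV : ∀ x ∈ closedBall p δ, ContDiffAt ℝ 1 V x) (hb : ∀ x ∈ closedBall p δ, ‖V x‖ ≤ L)
    (t0 : ℝ) : ∃ α : ℝ → F, α t0 = p ∧ ∀ t ∈ Ioo (t0 - δ / L) (t0 + δ / L),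
      α t ∈ closedBall p δ ∧ HasDerivAt α (V (α t)) t := by
  have := FiniteDimensional.complete ℝ F
  obtain ⟨K, hK⟩ := ContDiffOn.exists_lipschitzOnWith (n := 1)
    (fun x hx => (hV x hx).contDiffWithinAt) one_ne_zero (convex_closedBall p δ)
    (isCompact_closedBall p δ)
  have T0 : 0 < δ / L := by positivity
  have hf : IsPicardLindelof (fun _ => V) (tmin := t0 - δ / L) (tmax := t0 + δ / L)
      ⟨t0, by constructor <;> linarith⟩ p ⟨δ, δ0.le⟩ 0 ⟨L, L0.le⟩ K :=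
    IsPicardLindelof.of_time_independent hb hK (by
      show L * max (t0 + δ / L - t0) (t0 - (t0 - δ / L)) ≤ δ - 0
      rw [add_sub_cancel_left, sub_sub_cancel, max_self, mul_div_cancel₀ _ L0.ne', sub_zero])
  have hx : p ∈ closedBall p ((0 : NNReal) : ℝ) := mem_closedBall_self le_rfl
  obtain ⟨α, hα⟩ := ODE.FunSpace.exists_isFixedPt_next hf hx
  refine ⟨α.compProj, ?_, fun t ht => ⟨α.compProj_mem_closedBall hf.mul_max_le, ?_⟩⟩
  · exact (ODE.FunSpace.compProj_val (α := α) (t := ⟨t0, by constructor <;> linarith⟩)).trans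
      α.apply_of_zero
  refine HasDerivWithinAt.hasDerivAt ?_ (Icc_mem_nhds ht.1 ht.2)
  have ht' := Ioo_subset_Icc_self ht
  apply ODE.hasDerivWithinAt_picard_Icc (t₀ := t0) (by constructor <;> linarith)
    hf.continuousOn_uncurry α.continuous_compProj.continuousOn
    (fun _ _ => α.compProj_mem_closedBall hf.mul_max_le) p ht' |>.congr_of_mem _ ht'
  intro t' h'
  nth_rw 1 [← hα]
  rw [ODE.FunSpace.compProj_of_mem h', ODE.FunSpace.next_apply]

/-- short time growth of a solution of a linear inequality -/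
theorem short {f f' : ℝ → F} {S C : ℝ} (C0 : 0 ≤ C) (hS : C * S ≤ 1 / 2)
    (hf : ∀ s, HasDerivAt f (f' s) s) (hb : ∀ s, |s| ≤ S → ‖f' s‖ ≤ C * ‖f s‖) {s : ℝ}
    (hs : |s| ≤ S) : ‖f s - f 0‖ ≤ 2 * C * S * ‖f 0‖ := by
  have S0 : 0 ≤ S := (abs_nonneg s).trans hs
  have z : (0 : ℝ) ∈ Icc (-S) S := ⟨by linarith, S0⟩
  obtain ⟨m, hm, h⟩ := isCompact_Icc.exists_isMaxOn ⟨0, z⟩
    (f := fun s => ‖f s‖) fun s _ => (hf s).continuousAt.norm.continuousWithinAt
  have k : ∀ s ∈ Icc (-S) S, ‖f s - f 0‖ ≤ C * ‖f m‖ * S := fun s hs =>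
    ((convex_Icc (-S) S).norm_image_sub_le_of_norm_hasDerivWithin_le
      (fun s _ => (hf s).hasDerivWithinAt) (fun s hs => (hb s (abs_le.2 hs)).trans
        (mul_le_mul_of_nonneg_left (h hs) C0)) z hs).trans (by
      rw [sub_zero]; gcongr; exact abs_le.2 hs)
  have k1 := k m hm
  have k2 := norm_le_norm_add_norm_sub' (f m) (f 0)
  have k3 : ‖f m‖ ≤ 2 * ‖f 0‖ := by nlinarith [norm_nonneg (f m)]
  refine (k s (abs_le.1 hs)).trans ?_
  nlinarith [mul_nonneg C0 S0]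

end Pool.Agent.H.MP_611141_gt
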