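import Pool.Agent.H.MP_611141_gt.D

open Filter Topology Set
open scoped ContDiff

set_option maxSynthPendingDepth 3

namespace Pool.Agent.H.MP_611141_gt

variable {E : Type*} [NormedAddCommGroup E] [NormedSpace ℝ E]

/-- a smooth pseudo-Riemannian metric on an open set -/
structure Met (G : E → E →L[ℝ] E →L[ℝ] ℝ) (U : Set E) : Prop where
  op : IsOpen U
  sm : ContDiffOn ℝ ∞ G U
  sy : ∀ z ∈ U, ∀ u v, G z u v = G z v u
  nd : ∀ z ∈ U, ∀ u, (∀ v, G z u v = 0) → u = 0

/-- flipping -/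
noncomputable def fl (E : Type*) [NormedAddCommGroup E] [NormedSpace ℝ E] :
    (E →L[ℝ] E →L[ℝ] ℝ) →L[ℝ] E →L[ℝ] E →L[ℝ] ℝ :=
  (ContinuousLinearMap.flipₗᵢ ℝ E E ℝ).toContinuousLinearEquiv.toContinuousLinearMap

/-- first flip -/
noncomputable def f1 {H : Type*} [NormedAddCommGroup H] [NormedSpace ℝ H]
    (D : E →L[ℝ] E →L[ℝ] E →L[ℝ] H) : E →L[ℝ] E →L[ℝ] E →L[ℝ] H := D.flip

/-- cyclic flip -/
noncomputable def f2 (D : E →L[ℝ] E →L[ℝ] E →L[ℝ] ℝ) : E →L[ℝ] E →L[ℝ] E →L[ℝ] ℝ :=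
  fl E ∘L D.flip

/-- bundled Christoffel symbols -/
noncomputable def Ga (G : E → E →L[ℝ] E →L[ℝ] ℝ) (z : E) : E →L[ℝ] E →L[ℝ] E :=
  ContinuousLinearMap.compL ℝ E (E →L[ℝ] ℝ) E (G z).inverse ∘L ((1 / 2 : ℝ) • (fderiv ℝ G z +
    f1 (fderiv ℝ G z) - f2 (fderiv ℝ G z)))

theorem Ga_eq (G : E → E →L[ℝ] E →L[ℝ] ℝ) (z u v : E) : Gam G z u v = Ga G z u v := rfl

variable {G : E → E →L[ℝ] E →L[ℝ] ℝ} {U : Set E} {z : E}

theorem Met.at (h : Met G U) (hz : z ∈ U) : ContDiffAt ℝ ∞ G z := h.sm.contDiffAt (h.op.mem_nhds hz)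

theorem Met.dG (h : Met G U) (hz : z ∈ U) : HasFDerivAt G (fderiv ℝ G z) z :=
  ((h.at hz).differentiableAt (by simp)).hasFDerivAt

theorem Met.dsy (h : Met G U) (hz : z ∈ U) (w u v : E) :
    fderiv ℝ G z w u v = fderiv ℝ G z w v u := by
  have a := fun u v => ((h.dG hz).clm_apply (hasFDerivAt_const u z)).clm_apply
    (hasFDerivAt_const v z)
  have := (a u v).unique ((a v u).congr_of_eventuallyEq
    ((h.op.eventually_mem hz).mono fun y hy => h.sy y hy u v))
  simpa using congrArg (fun L : E →L[ℝ] ℝ => L w) this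

variable [FiniteDimensional ℝ E]

theorem Met.inv (h : Met G U) (hz : z ∈ U) : (G z).IsInvertible := by
  have := FiniteDimensional.complete ℝ E
  have i : Function.Injective (G z) := (injective_iff_map_eq_zero _).2 fun u hu =>
    h.nd z hz u fun v => by simp [hu]
  have e : Module.finrank ℝ E = Module.finrank ℝ (E →L[ℝ] ℝ) :=
    (Subspace.dual_finrank_eq (K := ℝ) (V := E)).symm.trans
      (LinearMap.toContinuousLinearMap (𝕜 := ℝ) (E := E) (F' := ℝ)).finrank_eq
  have s := (LinearMap.injective_iff_surjective_of_finrank_eq_finrank e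
    (f := (G z : E →ₗ[ℝ] E →L[ℝ] ℝ))).1 i
  exact ⟨ContinuousLinearEquiv.ofBijective (G z) (LinearMap.ker_eq_bot.2 i)
    (LinearMap.range_eq_top.2 s), rfl⟩

theorem Met.kos (h : Met G U) (hz : z ∈ U) (u v w : E) : 2 * G z (Ga G z u v) w =
    fderiv ℝ G z u v w + fderiv ℝ G z v u w - fderiv ℝ G z w u v := by
  rw [← Ga_eq, Gam, (h.inv hz).self_apply_inverse]
  simp

theorem Met.gsy (h : Met G U) (hz : z ∈ U) (u v : E) : Ga G z u v = Ga G z v u :=
  sub_eq_zero.1 (h.nd z hz _ fun w => by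
    have a := h.kos hz u v w
    have b := h.kos hz v u w
    rw [h.dsy hz w v u] at b
    simp only [map_sub, ContinuousLinearMap.sub_apply]
    linarith)

theorem Met.compat (h : Met G U) (hz : z ∈ U) (u v w : E) :
    fderiv ℝ G z u v w = G z (Ga G z u v) w + G z v (Ga G z u w) := by
  have a := h.kos hz u v w
  have b := h.kos hz u w v
  rw [h.sy z hz v, h.dsy hz u w v, h.dsy hz v u w, h.dsy hz w u v] at *
  linarith

theorem Met.gsm (h : Met G U) : ContDiffOn ℝ ∞ (Ga G) U := by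
  have := FiniteDimensional.complete ℝ E
  have d : ∀ u v w, ContDiffOn ℝ ∞ (fun z => fderiv ℝ G z u v w) U := fun u v w =>
    (((h.sm.fderiv_of_isOpen h.op (by simp)).clm_apply contDiffOn_const).clm_apply
      contDiffOn_const).clm_apply contDiffOn_const
  refine contDiffOn_clm_apply.2 fun u => contDiffOn_clm_apply.2 fun v => ?_
  refine ContDiffOn.clm_apply (f := fun z => (G z).inverse) (fun z hz =>
    (h.inv hz).contDiffAt_map_inverse.comp_contDiffWithinAt z (h.sm z hz))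
    (contDiffOn_clm_apply.2 fun w => ?_)
  exact (((d u v w).add (d v u w)).sub (d w u v)).const_smul (1 / 2 : ℝ)

theorem Met.gat (h : Met G U) (hz : z ∈ U) : ContDiffAt ℝ ∞ (Ga G) z :=
  h.gsm.contDiffAt (h.op.mem_nhds hz)

theorem Met.dGa (h : Met G U) (hz : z ∈ U) : HasFDerivAt (Ga G) (fderiv ℝ (Ga G) z) z :=
  ((h.gat hz).differentiableAt (by simp)).hasFDerivAt

/-- transformation law of the Christoffel symbols -/
theorem Met.law (h : Met G U) (hz : z ∈ U) {G' : E → E →L[ℝ] E →L[ℝ] ℝ} {U' : Set E}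
    (h' : Met G' U') {φ : E → E} (hz' : φ z ∈ U') (hφ : ContDiffAt ℝ 2 φ z)
    (hs : Function.Surjective (fderiv ℝ φ z))
    (e : ∀ u v, ∀ᶠ y in 𝓝 z, G y u v = G' (φ y) (fderiv ℝ φ y u) (fderiv ℝ φ y v)) (u v : E) :
    fderiv ℝ φ z (Ga G z u v) = Ga G' (φ z) (fderiv ℝ φ z u) (fderiv ℝ φ z v) +
      fderiv ℝ (fderiv ℝ φ) z u v := by
  have d1 := (hφ.differentiableAt two_ne_zero).hasFDerivAt
  have d2 := ((hφ.fderiv_right (m := 1) le_rfl).differentiableAt one_ne_zero).hasFDerivAt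
  have s2 := hφ.isSymmSndFDerivAt (by simp)
  have k : ∀ w u v, fderiv ℝ G z w u v = fderiv ℝ G' (φ z) (fderiv ℝ φ z w) (fderiv ℝ φ z u)
      (fderiv ℝ φ z v) + G' (φ z) (fderiv ℝ (fderiv ℝ φ) z w u) (fderiv ℝ φ z v) +
      G' (φ z) (fderiv ℝ φ z u) (fderiv ℝ (fderiv ℝ φ) z w v) := fun w u v => by
    have d0 := HasFDerivAt.comp (G := E →L[ℝ] E →L[ℝ] ℝ) z (h'.dG hz') d1
    have d3 := (d0.clm_apply (d2.clm_apply
        (hasFDerivAt_const u z))).clm_apply (d2.clm_apply (hasFDerivAt_const v z))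
    have := (((h.dG hz).clm_apply (hasFDerivAt_const u z)).clm_apply
      (hasFDerivAt_const v z)).unique (d3.congr_of_eventuallyEq (e u v))
    have := congrArg (fun L : E →L[ℝ] ℝ => L w) this
    simp at this
    linarith
  refine sub_eq_zero.1 (h'.nd _ hz' _ fun w' => ?_)
  obtain ⟨w, rfl⟩ := hs w'
  have a := h.kos hz u v w
  have b := h'.kos hz' (fderiv ℝ φ z u) (fderiv ℝ φ z v) (fderiv ℝ φ z w)
  rw [(e _ _).self_of_nhds, k, k, k, s2 v u, s2 w u, s2 w v,
    h'.sy _ hz' (fderiv ℝ φ z v) (fderiv ℝ (fderiv ℝ φ) z u w)] at a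
  simp only [map_sub, map_add, ContinuousLinearMap.sub_apply, ContinuousLinearMap.add_apply]
  linarith

/-- tensors -/
abbrev Tn (E : Type*) [NormedAddCommGroup E] [NormedSpace ℝ E] (m : ℕ) :=
  ContinuousMultilinearMap ℝ (fun _ : Fin m => E) E

/-- smooth tensor fields -/
def Good {m : ℕ} (U : Set E) (T : E → (Fin m → E) → E) : Prop :=
  ∃ S : E → Tn E m, ContDiffOn ℝ ∞ S U ∧ ∀ z ∈ U, ∀ v, T z v = S z v

/-- uncurrying -/
noncomputable def unc (E : Type*) [NormedAddCommGroup E] [NormedSpace ℝ E] (m : ℕ) :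
    (E →L[ℝ] Tn E m) →L[ℝ] Tn E (m + 1) :=
  (continuousMultilinearCurryLeftEquiv ℝ (fun _ : Fin (m + 1) => E)
    E).symm.toContinuousLinearEquiv.toContinuousLinearMap

/-- action on values -/
noncomputable def L1 (E : Type*) [NormedAddCommGroup E] [NormedSpace ℝ E] (m : ℕ) :
    (E →L[ℝ] E) →L[ℝ] Tn E m →L[ℝ] Tn E m :=
  ContinuousLinearMap.compContinuousMultilinearMapL ℝ (fun _ : Fin m => E) E E

/-- action on a slot -/
noncomputable def L2 (E : Type*) [NormedAddCommGroup E] [NormedSpace ℝ E] (m : ℕ) (i : Fin m) :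
    (E →L[ℝ] E) →L[ℝ] Tn E m →L[ℝ] Tn E m :=
  (ContinuousMultilinearMap.compContinuousLinearMapContinuousMultilinear ℝ
    (fun _ : Fin m => E) (fun _ => E) E).toContinuousLinearMap
      (fun _ => ContinuousLinearMap.id ℝ E) i

omit [FiniteDimensional ℝ E] in
theorem L2_apply {m : ℕ} (i : Fin m) (A : E →L[ℝ] E) (S : Tn E m) (v : Fin m → E) :
    L2 E m i A S v = S (Function.update v i (A (v i))) := by
  refine congrArg S (funext fun j => ?_)
  rcases eq_or_ne j i with rfl | hj <;> simp [*]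

/-- bundled covariant derivative -/
noncomputable def covb (G : E → E →L[ℝ] E →L[ℝ] ℝ) {m : ℕ} (S : E → Tn E m) (z : E) :
    E →L[ℝ] Tn E m :=
  fderiv ℝ S z + (L1 E m).flip (S z) ∘L Ga G z - ∑ i, (L2 E m i).flip (S z) ∘L Ga G z

omit [FiniteDimensional ℝ E] in
theorem covb_apply {m : ℕ} (S : E → Tn E m) (u : E) (v : Fin m → E) : covb G S z u v =
    fderiv ℝ S z u v + Ga G z u (S z v) - ∑ i, S z (Function.update v i (Ga G z u (v i))) := by
  simp only [covb, ContinuousLinearMap.sub_apply, ContinuousLinearMap.add_apply,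
    ContinuousLinearMap.sum_apply, ContinuousMultilinearMap.sub_apply,
    ContinuousMultilinearMap.add_apply, ContinuousMultilinearMap.sum_apply,
    ContinuousLinearMap.comp_apply, ContinuousLinearMap.flip_apply, L2_apply]
  rfl

theorem Met.covb_sm (h : Met G U) {m : ℕ} {S : E → Tn E m} (hS : ContDiffOn ℝ ∞ S U) :
    ContDiffOn ℝ ∞ (covb G S) U := by
  have c1 : ContDiffOn ℝ ∞ (fderiv ℝ S) U := hS.fderiv_of_isOpen h.op (by simp)
  have c2 : ∀ L : (E →L[ℝ] E) →L[ℝ] Tn E m →L[ℝ] Tn E m,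
      ContDiffOn ℝ ∞ (fun z => L.flip (S z) ∘L Ga G z) U := fun L =>
    contDiffOn_clm_apply.2 fun u => by
      have := L.contDiff.comp_contDiffOn (h.gsm.clm_apply (contDiffOn_const (c := u)))
      exact this.clm_apply hS
  exact (c1.add (c2 _)).sub (ContDiffOn.sum fun i _ => c2 _)

theorem Met.good_cov (h : Met G U) {m : ℕ} {T : E → (Fin m → E) → E} (hT : Good U T) :
    Good U (cov G T) := by
  obtain ⟨S, hS, e⟩ := hT
  refine ⟨_, (unc E m).contDiff.comp_contDiffOn (h.covb_sm hS), fun z hz v => ?_⟩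
  have d := ((hS.contDiffAt (h.op.mem_nhds hz)).differentiableAt
    (by simp)).hasFDerivAt.continuousMultilinear_apply_const (Fin.tail v)
  have d' := (d.congr_of_eventuallyEq (f₁ := fun w => T w (Fin.tail v))
    ((h.op.eventually_mem hz).mono fun y hy => e y hy _)).fderiv
  simp only [cov, d', e z hz, Ga_eq]
  exact (covb_apply S (v 0) (Fin.tail v)).symm

/-- bundled curvature -/
noncomputable def Rb (G : E → E →L[ℝ] E →L[ℝ] ℝ) (z : E) : E →L[ℝ] E →L[ℝ] E →L[ℝ] E :=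
  fderiv ℝ (Ga G) z - (fderiv ℝ (Ga G) z).flip +
    (ContinuousLinearMap.mul ℝ (E →L[ℝ] E)).bilinearComp (Ga G z) (Ga G z) -
    ((ContinuousLinearMap.mul ℝ (E →L[ℝ] E)).bilinearComp (Ga G z) (Ga G z)).flip

theorem Rb_apply (u v : E) : Rb G z u v = fderiv ℝ (Ga G) z u v - fderiv ℝ (Ga G) z v u +
    Ga G z u * Ga G z v - Ga G z v * Ga G z u := by simp [Rb]

theorem Met.rm (h : Met G U) (hz : z ∈ U) (v : Fin 3 → E) :
    Rm G z v = Rb G z (v 0) (v 1) (v 2) := by
  have a := fun u v => (((h.dGa hz).clm_apply (hasFDerivAt_const u z)).clm_apply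
    (hasFDerivAt_const v z)).fderiv
  simp [Rm, Ga_eq, a, Rb_apply]

theorem Met.good_rm (h : Met G U) : Good U (Rm G) := by
  let c1 : (E →L[ℝ] E) →L[ℝ] Tn E 1 :=
    (continuousMultilinearCurryFin1 ℝ E E).symm.toContinuousLinearEquiv.toContinuousLinearMap
  let c2 : (E →L[ℝ] E →L[ℝ] E) →L[ℝ] Tn E 2 := unc E 1 ∘L
    ContinuousLinearMap.compL ℝ E (E →L[ℝ] E) (Tn E 1) c1
  let c3 : (E →L[ℝ] E →L[ℝ] E →L[ℝ] E) →L[ℝ] Tn E 3 := unc E 2 ∘L
    ContinuousLinearMap.compL ℝ E (E →L[ℝ] E →L[ℝ] E) (Tn E 2) c2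
  refine ⟨c3 ∘ Rb G, c3.contDiff.comp_contDiffOn ?_, fun z hz v => by
    rw [h.rm hz]; rfl⟩
  refine contDiffOn_clm_apply.2 fun u => contDiffOn_clm_apply.2 fun v => ?_
  have d := fun u v => ((h.gsm.fderiv_of_isOpen h.op (m := ∞) (by simp)).clm_apply
    (contDiffOn_const (c := u))).clm_apply (contDiffOn_const (c := v))
  have d' := fun u => h.gsm.clm_apply (contDiffOn_const (c := u))
  simp only [Rb_apply]
  exact (((d u v).sub (d v u)).add ((d' u).mul (d' v))).sub ((d' v).mul (d' u))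

theorem Met.good (h : Met G U) : ∀ j, Good U (covR G j)
  | 0 => h.good_rm
  | j + 1 => h.good_cov (h.good j)

theorem Met.zero (h : Met G U) {r : ℕ} (hr : ∀ z ∈ U, ∀ v, covR G r z v = 0) (i : ℕ) :
    ∀ z ∈ U, ∀ v, covR G (r + i) z v = 0 := by
  induction i with
  | zero => exact hr
  | succ i ih =>
    intro z hz v
    have : (fun w => covR G (r + i) w (Fin.tail v)) =ᶠ[𝓝 z] fun _ => 0 :=
      (h.op.eventually_mem hz).mono fun y hy => ih y hy _
    show cov G (covR G (r + i)) z v = 0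
    simp [cov, this.fderiv_eq, ih z hz, Ga_eq]

/-- derivative of the components of a tensor in a parallel frame -/
theorem Met.lemD (h : Met G U) {m : ℕ} {T : E → (Fin m → E) → E} (hT : Good U T) {c : ℝ → E}
    {e : ℝ → E →L[ℝ] E} {t : ℝ} {u : E} (hz : c t ∈ U) (hc : HasDerivAt c u t)
    (he : HasDerivAt e (-Ga G (c t) u * e t) t) (hu : IsUnit (e t)) (v : Fin m → E) :
    HasDerivAt (fun s => Ring.inverse (e s) (T (c s) fun i => e s (v i)))
      (Ring.inverse (e t) (cov G T (c t) (Fin.cons u fun i => e t (v i)))) t := by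
  have := FiniteDimensional.complete ℝ E
  obtain ⟨S, hS, k⟩ := hT
  have d0 := ((hS.contDiffAt (h.op.mem_nhds hz)).differentiableAt (by simp)).hasFDerivAt
  have d' := ((d0.continuousMultilinear_apply_const fun i => e t (v i)).congr_of_eventuallyEq
    (f₁ := fun w => T w fun i => e t (v i))
    ((h.op.eventually_mem hz).mono fun y hy => k y hy _)).fderiv
  have d1 := ((d0.comp_hasDerivAt t hc).hasFDerivAt.continuousMultilinearMap_apply fun i =>
    (he.clm_apply (hasDerivAt_const t (v i))).hasFDerivAt).hasDerivAt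
  obtain ⟨w, hw⟩ := hu
  have d2 := (hasFDerivAt_ringInverse (𝕜 := ℝ) w).comp_hasDerivAt_of_eq t he hw
  refine ((d2.clm_apply d1).congr_of_eventuallyEq ((hc.continuousAt.eventually
    (h.op.eventually_mem hz)).mono fun s hs => congrArg _ (k _ hs _))).congr_deriv ?_
  have w1 : ∀ y, e t (Ring.inverse (e t) y) = y := fun y =>
    congrArg (fun L : E →L[ℝ] E => L y) (Ring.mul_inverse_cancel _ (hw ▸ w.isUnit))
  simp only [cov, Fin.tail_cons, Fin.cons_zero, d', k _ hz, Ga_eq]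
  have n : ∀ (x : Fin m → E) i y, S (c t) (Function.update x i (-y)) =
      -S (c t) (Function.update x i y) := fun x i y => (S (c t)).toMultilinearMap.map_update_neg x i y
  simp [← Ring.inverse_unit, hw, w1, n]
  abel

end Pool.Agent.H.MP_611141_gt
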