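import Pool.Agent.H.MP_611141_gt.B

open Filter Topology Set
open scoped ContDiff

set_option maxSynthPendingDepth 3

namespace Pool.Agent.H.MP_611141_gt

variable {E : Type*} [NormedAddCommGroup E] [NormedSpace ℝ E]

/-- frames in coordinates -/
abbrev St (E : Type*) [NormedAddCommGroup E] [NormedSpace ℝ E] := E × (E →L[ℝ] E)

/-- the canonical parallelism -/
noncomputable def XX (G : E → E →L[ℝ] E →L[ℝ] ℝ) (p ξ : St E) : St E :=
  (p.2 ξ.1, -Ga G p.1 (p.2 ξ.1) * p.2 + p.2 * ξ.2)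

variable {P : Type*} [NormedAddCommGroup P] [NormedSpace ℝ P]

/-- pull back of the canonical forms -/
noncomputable def mc (G : E → E →L[ℝ] E →L[ℝ] ℝ) (f : P → St E) (p : P) : P →L[ℝ] St E :=
  (Ring.inverse (f p).2 ∘L ContinuousLinearMap.fst ℝ _ _ ∘L fderiv ℝ f p).prod
    (ContinuousLinearMap.mul ℝ (E →L[ℝ] E) (Ring.inverse (f p).2) ∘L
      (ContinuousLinearMap.snd ℝ _ _ ∘L fderiv ℝ f p +
        (ContinuousLinearMap.mul ℝ (E →L[ℝ] E)).flip (f p).2 ∘L Ga G (f p).1 ∘L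
          ContinuousLinearMap.fst ℝ _ _ ∘L fderiv ℝ f p))

variable {G : E → E →L[ℝ] E →L[ℝ] ℝ} {U : Set E}

theorem ap_inv {e : E →L[ℝ] E} (h : IsUnit e) (y : E) : e (Ring.inverse e y) = y :=
  congrArg (fun L : E →L[ℝ] E => L y) (Ring.mul_inverse_cancel _ h)

theorem inv_ap {e : E →L[ℝ] E} (h : IsUnit e) (y : E) : Ring.inverse e (e y) = y :=
  congrArg (fun L : E →L[ℝ] E => L y) (Ring.inverse_mul_cancel _ h)

theorem mc_spec {f : P → St E} {p : P} (hu : IsUnit (f p).2) (h : P) :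
    XX G (f p) (mc G f p h) = fderiv ℝ f p h := by
  refine Prod.ext (ap_inv hu _) ?_
  simp [XX, mc, ap_inv hu, ← mul_assoc, Ring.mul_inverse_cancel _ hu, mul_add]

theorem XX_inj {p ξ ζ : St E} (hu : IsUnit p.2) (h : XX G p ξ = XX G p ζ) : ξ = ζ := by
  have a : p.2 ξ.1 = p.2 ζ.1 := congrArg Prod.fst h
  have b := congrArg Prod.snd h
  simp only [XX, a, add_right_inj] at b
  exact Prod.ext (by rw [← inv_ap hu ξ.1, a, inv_ap hu]) (hu.mul_left_cancel b)

theorem d_fst {A B : Type*} [NormedAddCommGroup A] [NormedSpace ℝ A] [NormedAddCommGroup B]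
    [NormedSpace ℝ B] {c : ℝ → A × B} {d : A × B} {t : ℝ} (h : HasDerivAt c d t) :
    HasDerivAt (fun s => (c s).1) d.1 t :=
  (ContinuousLinearMap.fst ℝ A B).hasFDerivAt.comp_hasDerivAt t h

theorem d_snd {A B : Type*} [NormedAddCommGroup A] [NormedSpace ℝ A] [NormedAddCommGroup B]
    [NormedSpace ℝ B] {c : ℝ → A × B} {d : A × B} {t : ℝ} (h : HasDerivAt c d t) :
    HasDerivAt (fun s => (c s).2) d.2 t :=
  (ContinuousLinearMap.snd ℝ A B).hasFDerivAt.comp_hasDerivAt t h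

theorem XX_mul {c : ℝ → St E} {u : ℝ → E →L[ℝ] E} {t : ℝ} {ξ : St E} {b : E}
    (hc : HasDerivAt c (XX G (c t) ξ) t) (hu : HasDerivAt u (-ξ.2 * u t) t) (hb : u t b = ξ.1) :
    HasDerivAt (fun s => ((c s).1, (c s).2 * u s)) (XX G ((c t).1, (c t).2 * u t) (b, 0)) t := by
  refine ((d_fst hc).prodMk ((d_snd hc).mul hu)).congr_deriv (Prod.ext ?_ ?_)
  · simp [XX, hb]
  · simp only [XX, ContinuousLinearMap.mul_apply, hb]
    noncomm_ring

/-- change of coordinates for frames -/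
noncomputable def Tr (φ : E → E) (p : St E) : St E := (φ p.1, fderiv ℝ φ p.1 * p.2)

theorem Tr_c2 {φ : E → E} {p : St E} (h : ContDiffAt ℝ 3 φ p.1) : ContDiffAt ℝ 2 (Tr φ) p :=
  ((h.of_le (by norm_num)).comp p contDiffAt_fst).prodMk
    (((h.fderiv_right (m := 2) (by norm_num)).comp p contDiffAt_fst).mul contDiffAt_snd)

theorem Tr_deriv {G' : E → E →L[ℝ] E →L[ℝ] ℝ} {φ : E → E} {c : ℝ → St E} {t : ℝ} {ξ : St E}
    (h : ContDiffAt ℝ 2 φ (c t).1) (hc : HasDerivAt c (XX G (c t) ξ) t)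
    (law : ∀ u v, fderiv ℝ φ (c t).1 (Ga G (c t).1 u v) = Ga G' (φ (c t).1)
      (fderiv ℝ φ (c t).1 u) (fderiv ℝ φ (c t).1 v) + fderiv ℝ (fderiv ℝ φ) (c t).1 u v) :
    HasDerivAt (fun s => Tr φ (c s)) (XX G' (Tr φ (c t)) ξ) t := by
  have d1 := (h.differentiableAt two_ne_zero).hasFDerivAt.comp_hasDerivAt t (d_fst hc)
  have d2 := ((h.fderiv_right (m := 1) le_rfl).differentiableAt
    one_ne_zero).hasFDerivAt.comp_hasDerivAt t (d_fst hc)
  refine (d1.prodMk (d2.mul (d_snd hc))).congr_deriv (Prod.ext rfl ?_)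
  ext v
  simp [XX, Tr, law]
  abel

variable [FiniteDimensional ℝ E]

theorem Met.XX_c2 (h : Met G U) (a : E) : ContDiffOn ℝ 2 (fun p : St E => XX G p (a, 0))
    (U ×ˢ univ) := by
  have c1 : ContDiffOn ℝ 2 (fun p : St E => p.2 a) (U ×ˢ univ) :=
    contDiffOn_snd.clm_apply contDiffOn_const
  have c2 : ContDiffOn ℝ 2 (fun p : St E => Ga G p.1) (U ×ˢ univ) :=
    (h.gsm.of_le (by norm_cast)).comp contDiffOn_fst fun p hp => hp.1
  exact c1.prodMk (((c2.clm_apply c1).neg.mul contDiffOn_snd).add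
    (contDiffOn_snd.mul contDiffOn_const))

theorem Met.pres (h : Met G U) {c : ℝ → St E} {t : ℝ} {a : E} (hz : (c t).1 ∈ U)
    (hc : HasDerivAt c (XX G (c t) (a, 0)) t) (u v : E) :
    HasDerivAt (fun s => G (c s).1 ((c s).2 u) ((c s).2 v)) 0 t := by
  have d := fun u => (d_snd hc).clm_apply (hasDerivAt_const t u)
  have d0 := (h.dG hz).comp_hasDerivAt t (d_fst hc)
  have d1 := (d0.clm_apply (d u)).clm_apply (d v)
  refine d1.congr_deriv ?_
  have := h.compat hz ((c t).2 a) ((c t).2 u) ((c t).2 v)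
  simp only [XX, ContinuousLinearMap.add_apply, this, mul_zero, add_zero, map_zero, neg_mul,
    ContinuousLinearMap.neg_apply, ContinuousLinearMap.mul_apply, map_neg, Function.comp_apply]
  ring

theorem Met.mc_c1 (h : Met G U) {f : P → St E} {p : P} (hz : (f p).1 ∈ U) (hu : IsUnit (f p).2)
    (hf : ContDiffAt ℝ 2 f p) : ContDiffAt ℝ 1 (mc G f) p := by
  have := FiniteDimensional.complete ℝ E
  have f1 := hf.of_le one_le_two
  have d := hf.fderiv_right (m := 1) le_rfl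
  obtain ⟨w, hw⟩ := hu
  have i : ContDiffAt ℝ 1 (fun q => Ring.inverse (f q).2) p :=
    ContDiffAt.comp (g := Ring.inverse) p (hw ▸ contDiffAt_ringInverse ℝ w) f1.snd
  have z := (contDiffAt_const (c := ContinuousLinearMap.fst ℝ E (E →L[ℝ] E))).clm_comp d
  have g : ContDiffAt ℝ 1 (fun q => Ga G (f q).1) p :=
    ContDiffAt.comp (g := Ga G) p ((h.gat hz).of_le (by norm_cast)) f1.fst
  exact (ContinuousLinearMap.prodₗᵢ ℝ).contDiff.contDiffAt.comp p ((i.clm_comp z).prodMk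
    (((ContinuousLinearMap.mul ℝ (E →L[ℝ] E)).contDiff.contDiffAt.comp p i).clm_comp
      ((contDiffAt_const.clm_comp d).add (((ContinuousLinearMap.mul ℝ
        (E →L[ℝ] E)).flip.contDiff.contDiffAt.comp p f1.snd).clm_comp (g.clm_comp z)))))

/-- the structure equations -/
theorem Met.struct (h : Met G U) {f : P → St E} {p : P} (hz : (f p).1 ∈ U) (hu : IsUnit (f p).2)
    (hf : ContDiffAt ℝ 2 f p) {ξ : P → P →L[ℝ] St E} {ξ' : P →L[ℝ] P →L[ℝ] St E}
    (hξ : HasFDerivAt ξ ξ' p) (e : ∀ᶠ q in 𝓝 p, ∀ k, fderiv ℝ f q k = XX G (f q) (ξ q k))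
    (k l : P) : ξ' k l - ξ' l k = ((ξ p l).2 (ξ p k).1 - (ξ p k).2 (ξ p l).1,
      Ring.inverse (f p).2 * Rb G (f p).1 ((f p).2 (ξ p k).1) ((f p).2 (ξ p l).1) * (f p).2 -
        ((ξ p k).2 * (ξ p l).2 - (ξ p l).2 * (ξ p k).2)) := by
  have d1 := (hf.differentiableAt two_ne_zero).hasFDerivAt
  have d2 := ((hf.fderiv_right (m := 1) le_rfl).differentiableAt one_ne_zero).hasFDerivAt
  have s2 := hf.isSymmSndFDerivAt (by simp) k l
  have e0 := e.self_of_nhds
  have key : ∀ k l, fderiv ℝ (fderiv ℝ f) p k l =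
      ((fderiv ℝ f p k).2 (ξ p l).1 + (f p).2 (ξ' k l).1,
        -(fderiv ℝ (Ga G) (f p).1 (fderiv ℝ f p k).1 ((f p).2 (ξ p l).1) +
          Ga G (f p).1 (fderiv ℝ (fderiv ℝ f) p k l).1) * (f p).2 -
          Ga G (f p).1 ((f p).2 (ξ p l).1) * (fderiv ℝ f p k).2 +
          ((fderiv ℝ f p k).2 * (ξ p l).2 + (f p).2 * (ξ' k l).2)) := fun k l => by
    have x := hξ.clm_apply (hasFDerivAt_const l p)
    have a := d1.snd.clm_apply x.fst
    have b := ((((h.dGa hz).comp p d1.fst).clm_apply a).neg.mul' d1.snd).add (d1.snd.mul' x.snd)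
    have := congrArg (fun L : P →L[ℝ] St E => L k) ((d2.clm_apply (hasFDerivAt_const l p)).unique
      ((a.prodMk b).congr_of_eventuallyEq (e.mono fun q hq => hq l)))
    have t1 := congrArg Prod.fst this
    have t2 := congrArg Prod.snd this
    simp at t1 t2
    refine Prod.ext (t1.trans (add_comm _ _)) (t2.trans ?_)
    rw [t1]
    simp only [map_add]
    noncomm_ring
  have a1 := congrArg Prod.fst ((key k l).symm.trans (s2.trans (key l k)))
  have a2 := congrArg Prod.snd ((key k l).symm.trans (s2.trans (key l k)))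
  simp only [s2, e0, XX] at a1 a2
  refine XX_inj (G := G) (p := (0, (f p).2)) hu ?_
  have b1 : (f p).2 (ξ' k l - ξ' l k).1 = (f p).2 ((ξ p l).2 (ξ p k).1 - (ξ p k).2 (ξ p l).1) := by
    simp [h.gsy hz ((f p).2 (ξ p l).1)] at a1 ⊢
    rw [sub_eq_sub_iff_add_eq_add]
    simp only [add_assoc, add_right_inj] at a1
    rw [add_comm, a1, add_comm]
  refine Prod.ext b1 ?_
  simp only [XX, b1, add_right_inj, mul_sub, ← mul_assoc, Ring.mul_inverse_cancel _ hu, one_mul,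
    Rb_apply, Prod.snd_sub]
  rw [← sub_eq_zero] at a2 ⊢
  rw [← a2]
  noncomm_ring

end Pool.Agent.H.MP_611141_gt
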