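import Mathlib

open Filter Topology Set

namespace Pool.Agent.H.MP_611141_gt

variable {E : Type*} [NormedAddCommGroup E] [NormedSpace ℝ E]

/-- Christoffel symbols of the coordinate metric `G` (Koszul formula) -/
noncomputable def Gam (G : E → E →L[ℝ] E →L[ℝ] ℝ) (z u v : E) : E :=
  (G z).inverse ((1 / 2 : ℝ) • (fderiv ℝ G z u v + fderiv ℝ G z v u -
    ((fderiv ℝ G z).flip u).flip v))

/-- the curvature tensor `R(v 0, v 1) (v 2)` in coordinates -/
noncomputable def Rm (G : E → E →L[ℝ] E →L[ℝ] ℝ) (z : E) (v : Fin 3 → E) : E :=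
  fderiv ℝ (fun w => Gam G w (v 1) (v 2)) z (v 0) - fderiv ℝ (fun w => Gam G w (v 0) (v 2)) z (v 1) +
    Gam G z (v 0) (Gam G z (v 1) (v 2)) - Gam G z (v 1) (Gam G z (v 0) (v 2))

/-- covariant derivative of a `(1, m)` tensor field in coordinates (new slot first) -/
noncomputable def cov (G : E → E →L[ℝ] E →L[ℝ] ℝ) {m : ℕ} (T : E → (Fin m → E) → E) (z : E)
    (v : Fin (m + 1) → E) : E :=
  fderiv ℝ (fun w => T w (Fin.tail v)) z (v 0) + Gam G z (v 0) (T z (Fin.tail v)) -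
    ∑ i, T z (Function.update (Fin.tail v) i (Gam G z (v 0) (Fin.tail v i)))

/-- the `r`-fold covariant derivative of the curvature -/
noncomputable def covR (G : E → E →L[ℝ] E →L[ℝ] ℝ) : (r : ℕ) → E → (Fin (3 + r) → E) → E
  | 0 => Rm G
  | r + 1 => cov G (covR G r)

variable {M : Type*} [TopologicalSpace M] [ChartedSpace E M]

/-- derivative of the change of coordinates from the chart at `y` to the chart at `x` -/
noncomputable def Jc (E : Type*) [NormedAddCommGroup E] [NormedSpace ℝ E] [ChartedSpace E M]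
    (x y : M) (z : E) : E →L[ℝ] E :=
  fderiv ℝ (chartAt E x ∘ (chartAt E y).symm) z

/-- the metric read in the chart at `y` -/
noncomputable def Gc (g : M → E →L[ℝ] E →L[ℝ] ℝ) (y : M) (z : E) : E →L[ℝ] E →L[ℝ] ℝ :=
  (g ((chartAt E y).symm z)).bilinearComp (Jc E ((chartAt E y).symm z) y z)
    (Jc E ((chartAt E y).symm z) y z)

/-- velocity of a curve, in the chart at its current point -/
noncomputable def vel (E : Type*) [NormedAddCommGroup E] [NormedSpace ℝ E] [ChartedSpace E M]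
    (γ : ℝ → M) (t : ℝ) : E :=
  deriv (chartAt E (γ t) ∘ γ) t

/-- `γ` is a geodesic on the nonempty open interval `I` -/
def Geo (g : M → E →L[ℝ] E →L[ℝ] ℝ) (γ : ℝ → M) (I : Set ℝ) : Prop :=
  IsOpen I ∧ I.OrdConnected ∧ I.Nonempty ∧ ∀ t ∈ I, ContinuousAt γ t ∧
    (∀ᶠ s in 𝓝 t, DifferentiableAt ℝ (chartAt E (γ t) ∘ γ) s) ∧
    HasDerivAt (deriv (chartAt E (γ t) ∘ γ))
      (-Gam (Gc g (γ t)) (chartAt E (γ t) (γ t)) (vel E γ t) (vel E γ t)) t

/-- every inextendible geodesic of the causal type `P` is defined on the whole line -/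
def Complete (g : M → E →L[ℝ] E →L[ℝ] ℝ) (P : ℝ → Prop) : Prop :=
  ∀ γ I, Geo g γ I → (∀ γ' I', Geo g γ' I' → I ⊆ I' → EqOn γ γ' I → I' = I) →
    (∀ t ∈ I, vel E γ t ≠ 0 ∧ P (g (γ t) (vel E γ t) (vel E γ t))) → I = univ

end Pool.Agent.H.MP_611141_gt
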