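import Pool.Agent.H.MP_611141_gt.C

open Filter Topology Set
open scoped ContDiff Manifold

set_option maxSynthPendingDepth 3

namespace Pool.Agent.H.MP_611141_gt

variable {E : Type*} [NormedAddCommGroup E] [NormedSpace ℝ E] {M : Type*} [TopologicalSpace M]
  [ChartedSpace E M]

/-- a smooth pseudo-Riemannian metric -/
structure PM (g : M → E →L[ℝ] E →L[ℝ] ℝ) : Prop where
  sm : ∀ y, ContDiffOn ℝ ∞ (Gc g y) (chartAt E y).target
  sy : ∀ x u v, g x u v = g x v u
  nd : ∀ x u, (∀ v, g x u v = 0) → u = 0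

/-- frames -/
abbrev Q (E : Type*) [NormedAddCommGroup E] [NormedSpace ℝ E] (M : Type*) := M × (E →L[ℝ] E)

/-- coordinates of a frame -/
noncomputable def loc (y : M) (q : Q E M) : St E :=
  (chartAt E y q.1, Jc E y q.1 (chartAt E q.1 q.1) * q.2)

/-- a frame from its coordinates -/
noncomputable def unloc (y : M) (p : St E) : Q E M :=
  ((chartAt E y).symm p.1, Jc E ((chartAt E y).symm p.1) y p.1 * p.2)

theorem ev_src {X : Type*} [TopologicalSpace X] {f : X → M} {p : X} (h : ContinuousAt f p) {y : M}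
    (hy : f p ∈ (chartAt E y).source) : ∀ᶠ s in 𝓝 p, f s ∈ (chartAt E y).source :=
  h.eventually ((chartAt E y).open_source.eventually_mem hy)

theorem ev_chart {x y m : M} (hx : m ∈ (chartAt E x).source) (hy : m ∈ (chartAt E y).source) :
    ∀ᶠ z in 𝓝 (chartAt E y m), z ∈ (chartAt E y).target ∧
      (chartAt E y).symm z ∈ (chartAt E x).source :=
  ((chartAt E y).open_target.eventually_mem ((chartAt E y).map_source hy)).and
    (ev_src ((chartAt E y).continuousAt_symm ((chartAt E y).map_source hy))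
      (by rwa [(chartAt E y).left_inv hy]))

theorem Jc_self {x m : M} (hx : m ∈ (chartAt E x).source) : Jc E x x (chartAt E x m) = 1 :=
  ((hasFDerivAt_id _).congr_of_eventuallyEq ((ev_chart hx hx).mono fun _ hz =>
    (chartAt E x).right_inv hz.1)).fderiv

theorem loc_self (q : Q E M) : loc q.1 q = (chartAt E q.1 q.1, q.2) := by
  rw [loc, Jc_self (mem_chart_source E _), one_mul]

variable [IsManifold 𝓘(ℝ, E) ∞ M] {x y w m : M}

theorem tr_sm (hx : m ∈ (chartAt E x).source) (hy : m ∈ (chartAt E y).source) :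
    ContDiffAt ℝ ∞ (chartAt E x ∘ (chartAt E y).symm) (chartAt E y m) := by
  have := contDiffWithinAt_ext_coord_change (I := 𝓘(ℝ, E)) (n := ∞) x y
    (y := chartAt E y m) (by simp [hx, hy])
  simpa [contDiffWithinAt_univ] using this

theorem Jc_mul (hx : m ∈ (chartAt E x).source) (hy : m ∈ (chartAt E y).source)
    (hw : m ∈ (chartAt E w).source) :
    Jc E x y (chartAt E y m) * Jc E y w (chartAt E w m) = Jc E x w (chartAt E w m) := by
  have a := ((tr_sm hx hy).differentiableAt (by simp)).hasFDerivAt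
  have b := ((tr_sm hy hw).differentiableAt (by simp)).hasFDerivAt
  have e : chartAt E y m = (chartAt E y ∘ (chartAt E w).symm) (chartAt E w m) := by simp [hw]
  have c := HasFDerivAt.comp (g := chartAt E x ∘ (chartAt E y).symm)
    (g' := Jc E x y (chartAt E y m)) _ (by rw [← e]; exact a) b
  exact (c.congr_of_eventuallyEq (f₁ := chartAt E x ∘ (chartAt E w).symm)
    ((ev_chart hy hw).mono fun z hz => by simp [hz.2])).fderiv.symm

theorem Jc_unit (hx : m ∈ (chartAt E x).source) (hy : m ∈ (chartAt E y).source) :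
    IsUnit (Jc E x y (chartAt E y m)) :=
  ⟨⟨_, Jc E y x (chartAt E x m), (Jc_mul hx hy hx).trans (Jc_self hx),
    (Jc_mul hy hx hy).trans (Jc_self hy)⟩, rfl⟩

theorem loc_unloc {p : St E} (h : p.1 ∈ (chartAt E y).target) : loc y (unloc y p) = p := by
  have a := (chartAt E y).map_target h
  have b := Jc_mul a (mem_chart_source E _) a
  rw [Jc_self a, (chartAt E y).right_inv h] at b
  simp only [loc, unloc, ← mul_assoc, b, one_mul, (chartAt E y).right_inv h]

theorem unloc_loc {q : Q E M} (h : q.1 ∈ (chartAt E y).source) : unloc y (loc y q) = q := by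
  simp only [loc, unloc, ← mul_assoc, (chartAt E y).left_inv h, Jc_mul (mem_chart_source E _) h
    (mem_chart_source E _), Jc_self (mem_chart_source E _), one_mul]

theorem loc_tr {q : Q E M} (hx : q.1 ∈ (chartAt E x).source) (hy : q.1 ∈ (chartAt E y).source) :
    loc x q = Tr (chartAt E x ∘ (chartAt E y).symm) (loc y q) := by
  simp only [loc, Tr, ← mul_assoc, ← Jc_mul hx hy (mem_chart_source E _), Function.comp_apply,
    (chartAt E y).left_inv hy]
  rfl

theorem loc_unit {q : Q E M} (h : q.1 ∈ (chartAt E y).source) :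
    IsUnit (loc y q).2 ↔ IsUnit q.2 :=
  (Jc_unit h (mem_chart_source E _)).mul_left_iff

variable {g : M → E →L[ℝ] E →L[ℝ] ℝ}

theorem Gc_tr (hx : m ∈ (chartAt E x).source) (hy : m ∈ (chartAt E y).source) (u v : E) :
    Gc g y (chartAt E y m) u v = Gc g x (chartAt E x m) (Jc E x y (chartAt E y m) u)
      (Jc E x y (chartAt E y m) v) := by
  simp only [Gc, (chartAt E x).left_inv hx, (chartAt E y).left_inv hy,
    ← Jc_mul (mem_chart_source E m) hx hy]
  rfl

theorem g_loc {q : Q E M} (h : q.1 ∈ (chartAt E y).source) (u v : E) :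
    g q.1 (q.2 u) (q.2 v) = Gc g y (loc y q).1 ((loc y q).2 u) ((loc y q).2 v) := by
  refine Eq.trans ?_ (Gc_tr h (mem_chart_source E q.1) _ _)
  simp [Gc, Jc_self (mem_chart_source E q.1)]

theorem PM.met (h : PM g) (y : M) : Met (Gc g y) (chartAt E y).target := by
  refine ⟨(chartAt E y).open_target, h.sm y, fun z _ u v => h.sy _ _ _, fun z hz u hu => ?_⟩
  have a := Jc_unit (mem_chart_source E _) ((chartAt E y).map_target hz)
  rw [(chartAt E y).right_inv hz] at a
  rw [← inv_ap a u, h.nd ((chartAt E y).symm z) (Jc E ((chartAt E y).symm z) y z u) fun v => by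
    simpa [Gc, ap_inv a] using hu (Ring.inverse (Jc E ((chartAt E y).symm z) y z) v), map_zero]

/-- `c` has velocity `ξ` with respect to the canonical parallelism -/
def Vel (g : M → E →L[ℝ] E →L[ℝ] ℝ) (c : ℝ → Q E M) (t : ℝ) (ξ : St E) : Prop :=
  ContinuousAt (fun s => (c s).1) t ∧ ∀ y, (c t).1 ∈ (chartAt E y).source →
    HasDerivAt (fun s => loc y (c s)) (XX (Gc g y) (loc y (c t)) ξ) t

variable {P : Type*} [NormedAddCommGroup P] [NormedSpace ℝ P]

/-- maps of class C² into frames -/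
def C2 (Ψ : P → Q E M) (p : P) : Prop :=
  ContinuousAt (fun s => (Ψ s).1) p ∧ ∀ y, (Ψ p).1 ∈ (chartAt E y).source →
    ContDiffAt ℝ 2 (fun s => loc y (Ψ s)) p

/-- pull back of the canonical forms -/
noncomputable def MC (g : M → E →L[ℝ] E →L[ℝ] ℝ) (Ψ : P → Q E M) (p : P) : P →L[ℝ] St E :=
  mc (Gc g (Ψ p).1) (fun s => loc (Ψ p).1 (Ψ s)) p

variable {Ψ : P → Q E M} {p : P} {c : ℝ → Q E M} {t : ℝ} {ξ : St E}

theorem C2.intro (h : ContinuousAt (fun s => (Ψ s).1) p) (hy : (Ψ p).1 ∈ (chartAt E y).source)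
    (hd : ContDiffAt ℝ 2 (fun s => loc y (Ψ s)) p) : C2 Ψ p :=
  ⟨h, fun x hx => (ContDiffAt.comp (g := Tr (chartAt E x ∘ (chartAt E y).symm)) p
    (Tr_c2 (p := loc y (Ψ p)) ((tr_sm hx hy).of_le (by norm_cast))) hd).congr_of_eventuallyEq
      (((ev_src h hx).and (ev_src h hy)).mono fun _ hs => loc_tr hs.1 hs.2)⟩

omit [IsManifold 𝓘(ℝ, E) ∞ M] in
theorem C2.congr (h : C2 Ψ p) {Ψ' : P → Q E M} (e : Ψ' =ᶠ[𝓝 p] Ψ) : C2 Ψ' p :=
  ⟨h.1.congr (e.mono fun _ hs => congrArg _ hs.symm), fun y hy => (h.2 y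
    (e.self_of_nhds ▸ hy)).congr_of_eventuallyEq (e.mono fun _ hs => congrArg _ hs)⟩

omit [IsManifold 𝓘(ℝ, E) ∞ M] in
theorem C2.comp {P' : Type*} [NormedAddCommGroup P'] [NormedSpace ℝ P'] {τ : P' → P} {p' : P'}
    (h : C2 Ψ (τ p')) (hτ : ContDiffAt ℝ 2 τ p') : C2 (fun s => Ψ (τ s)) p' :=
  ⟨h.1.comp hτ.continuousAt, fun y hy => (h.2 y hy).comp p' hτ⟩

theorem unloc_ev {X : Type*} [TopologicalSpace X] {f : X → St E} {p : X} (h : ContinuousAt f p)
    (hy : (f p).1 ∈ (chartAt E y).target) : ContinuousAt (fun s => (unloc y (f s)).1) p ∧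
      (fun s => loc y (unloc y (f s))) =ᶠ[𝓝 p] f :=
  ⟨((chartAt E y).continuousAt_symm hy).comp (f := fun s => (f s).1) h.fst,
    (h.fst.eventually ((chartAt E y).open_target.eventually_mem hy)).mono fun _ hs => loc_unloc hs⟩

theorem C2.of_unloc {f : P → St E} (hy : (f p).1 ∈ (chartAt E y).target) (h : ContDiffAt ℝ 2 f p) :
    C2 (fun s => unloc y (f s)) p :=
  C2.intro (unloc_ev h.continuousAt hy).1 ((chartAt E y).map_target hy)
    (h.congr_of_eventuallyEq (unloc_ev h.continuousAt hy).2)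

theorem C2.ev (h : C2 Ψ p) : ∀ᶠ s in 𝓝 p, C2 Ψ s := by
  have a := h.2 _ (mem_chart_source E _)
  filter_upwards [a.eventually (by simp), (ev_src h.1 (mem_chart_source E _)).eventually_nhds]
    with s h1 h2
  exact (C2.of_unloc ((chartAt E _).map_source h2.self_of_nhds) h1).congr
    (h2.mono fun _ hs => (unloc_loc hs).symm)

theorem ev_unit [FiniteDimensional ℝ E] {X : Type*} [TopologicalSpace X] {f : X → Q E M} {p : X}
    (h : ContinuousAt (fun s => (f s).1) p) (h' : ContinuousAt (fun s => loc (f p).1 (f s)) p)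
    (hu : IsUnit (f p).2) : ∀ᶠ s in 𝓝 p, IsUnit (f s).2 := by
  have := FiniteDimensional.complete ℝ E
  filter_upwards [ev_src h (mem_chart_source E _), h'.snd.eventually (Units.isOpen.eventually_mem
    ((loc_unit (mem_chart_source E _)).2 hu))] with s h1 h2 using (loc_unit h1).1 h2

omit [IsManifold 𝓘(ℝ, E) ∞ M] in
theorem Vel.congr (h : Vel g c t ξ) {c' : ℝ → Q E M} (e : c' =ᶠ[𝓝 t] c) : Vel g c' t ξ :=
  ⟨h.1.congr (e.mono fun _ hs => congrArg _ hs.symm), fun y hy => e.self_of_nhds ▸ (h.2 y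
    (e.self_of_nhds ▸ hy)).congr_of_eventuallyEq (e.mono fun _ hs => congrArg _ hs)⟩

theorem Vel.uniq (h : Vel g c t ξ) {ζ : St E} (h' : Vel g c t ζ) (hu : IsUnit (c t).2) : ξ = ζ :=
  XX_inj ((loc_unit (mem_chart_source E _)).2 hu)
    ((h.2 _ (mem_chart_source E _)).unique (h'.2 _ (mem_chart_source E _)))

omit [IsManifold 𝓘(ℝ, E) ∞ M] in
theorem Vel.mul (h : Vel g c t ξ) {u : ℝ → E →L[ℝ] E} {b : E} (hu : HasDerivAt u (-ξ.2 * u t) t)
    (hb : u t b = ξ.1) : Vel g (fun s => ((c s).1, (c s).2 * u s)) t (b, 0) :=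
  ⟨h.1, fun y hy => by simpa only [loc, mul_assoc] using XX_mul (h.2 y hy) hu hb⟩

variable [FiniteDimensional ℝ E]

theorem PM.vel_intro (hg : PM g) (h : ContinuousAt (fun s => (c s).1) t)
    (hy : (c t).1 ∈ (chartAt E y).source)
    (hd : HasDerivAt (fun s => loc y (c s)) (XX (Gc g y) (loc y (c t)) ξ) t) : Vel g c t ξ := by
  refine ⟨h, fun x hx => ?_⟩
  have s2 := (tr_sm hx hy).of_le (show (2 : WithTop ℕ∞) ≤ ∞ by norm_cast)
  rw [loc_tr hx hy]
  refine (Tr_deriv (c := fun s => loc y (c s)) s2 hd ((hg.met y).law ((chartAt E y).map_source hy)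
    (hg.met x) (by simp [hx, hy]) s2 (fun v => ⟨_, ap_inv (Jc_unit hx hy) v⟩)
      fun u v => ?_)).congr_of_eventuallyEq (((ev_src h hx).and (ev_src h hy)).mono
      fun _ hs => loc_tr hs.1 hs.2)
  filter_upwards [ev_chart hx hy] with z hz
  have := Gc_tr (g := g) hz.2 ((chartAt E y).map_target hz.1) u v
  rwa [(chartAt E y).right_inv hz.1] at this

theorem PM.vel_unloc (hg : PM g) {f : ℝ → St E} (hy : (f t).1 ∈ (chartAt E y).target)
    (h : HasDerivAt f (XX (Gc g y) (f t) ξ) t) : Vel g (fun s => unloc y (f s)) t ξ :=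
  hg.vel_intro (unloc_ev h.continuousAt hy).1 ((chartAt E y).map_target hy)
    ((loc_unloc hy).symm ▸ h.congr_of_eventuallyEq (unloc_ev h.continuousAt hy).2)

theorem PM.c2_vel (hg : PM g) {τ : ℝ → P} {τ' : P} (h : C2 Ψ p) (hu : IsUnit (Ψ p).2)
    (hτ : HasDerivAt τ τ' t) (e : τ t = p) : Vel g (fun s => Ψ (τ s)) t (MC g Ψ p τ') := by
  subst e
  exact hg.vel_intro (h.1.comp hτ.continuousAt) (mem_chart_source E _) ((((h.2 _ (mem_chart_source E
    _)).differentiableAt two_ne_zero).hasFDerivAt.comp_hasDerivAt t hτ).congr_deriv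
      (mc_spec (f := fun s => loc _ (Ψ s)) ((loc_unit (mem_chart_source E _)).2 hu) _).symm)

theorem PM.mc_chart (hg : PM g) (h : C2 Ψ p) (hu : IsUnit (Ψ p).2)
    (hy : (Ψ p).1 ∈ (chartAt E y).source) (k : P) :
    fderiv ℝ (fun s => loc y (Ψ s)) p k = XX (Gc g y) (loc y (Ψ p)) (MC g Ψ p k) := by
  have d : HasDerivAt (fun s : ℝ => p + s • k) k 0 := by
    simpa using ((hasDerivAt_id (0 : ℝ)).smul_const k).const_add p
  have e : p = p + (0 : ℝ) • k := by simp
  have a := (hg.c2_vel h hu d e.symm).2 y (by simpa using hy)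
  simp only [← e] at a
  exact (((h.2 y hy).differentiableAt two_ne_zero).hasFDerivAt.comp_hasDerivAt_of_eq 0 d e).unique a

theorem PM.mc_c1 (hg : PM g) (h : C2 Ψ p) (hu : IsUnit (Ψ p).2) : ContDiffAt ℝ 1 (MC g Ψ) p := by
  have s := mem_chart_source E (Ψ p).1
  refine ((hg.met _).mc_c1 (f := fun s => loc _ (Ψ s)) ((chartAt E _).map_source s)
    ((loc_unit s).2 hu)
    (h.2 _ s)).congr_of_eventuallyEq ?_
  filter_upwards [h.ev, ev_unit h.1 (h.2 _ s).continuousAt hu, ev_src h.1 s] with q h1 h2 h3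
  ext1 k
  exact XX_inj ((loc_unit h3).2 h2) ((hg.mc_chart h1 h2 h3 k).symm.trans
    (mc_spec (f := fun s => loc _ (Ψ s)) ((loc_unit h3).2 h2) k).symm)

/-- components of the covariant derivatives of the curvature in a frame -/
noncomputable def Kc (g : M → E →L[ℝ] E →L[ℝ] ℝ) (j : ℕ) (y : M) (q : Q E M)
    (v : Fin (3 + j) → E) : E :=
  Ring.inverse (loc y q).2 (covR (Gc g y) j (loc y q).1 fun i => (loc y q).2 (v i))

theorem PM.struct (hg : PM g) (h : C2 Ψ p) (hu : IsUnit (Ψ p).2)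
    (hy : (Ψ p).1 ∈ (chartAt E y).source) (k l : P) :
    (fderiv ℝ (MC g Ψ) p k l - fderiv ℝ (MC g Ψ) p l k).1 =
      (MC g Ψ p l).2 (MC g Ψ p k).1 - (MC g Ψ p k).2 (MC g Ψ p l).1 ∧
    ∀ w, (fderiv ℝ (MC g Ψ) p k l - fderiv ℝ (MC g Ψ) p l k).2 w =
      Kc g 0 y (Ψ p) ![(MC g Ψ p k).1, (MC g Ψ p l).1, w] -
        ((MC g Ψ p k).2 * (MC g Ψ p l).2 - (MC g Ψ p l).2 * (MC g Ψ p k).2) w := by
  have := (hg.met y).struct (f := fun s => loc y (Ψ s)) ((chartAt E y).map_source hy)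
    ((loc_unit hy).2 hu) (h.2 y hy)
    ((hg.mc_c1 h hu).differentiableAt one_ne_zero).hasFDerivAt (by
      filter_upwards [h.ev, ev_unit h.1 (h.2 _ (mem_chart_source E _)).continuousAt hu,
        ev_src h.1 hy] with q h1 h2 h3 using hg.mc_chart h1 h2 h3) k l
  rw [this]
  refine ⟨rfl, fun w => ?_⟩
  rw [Kc, covR, (hg.met y).rm (z := (loc y (Ψ p)).1) ((chartAt E y).map_source hy)]
  rfl

theorem PM.Kc_deriv (hg : PM g) {a : E} (h : Vel g c t (a, 0)) (hu : IsUnit (c t).2)
    (hy : (c t).1 ∈ (chartAt E y).source) (j : ℕ) (v : Fin (3 + j) → E) :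
    HasDerivAt (fun s => Kc g j y (c s) v) (Kc g (j + 1) y (c t) (Fin.cons a v)) t := by
  have d := h.2 y hy
  refine ((hg.met y).lemD ((hg.met y).good j) ((chartAt E y).map_source hy) (d_fst d)
    ((d_snd d).congr_deriv (by simp [XX])) ((loc_unit hy).2 hu) v).congr_deriv ?_
  rw [Kc, covR]
  refine congrArg _ (congrArg _ (funext fun i => ?_))
  cases i using Fin.cases <;> rfl

theorem PM.Kc_indep (hg : PM g) (j : ℕ) : ∀ q : Q E M, IsUnit q.2 → q.1 ∈ (chartAt E x).source →
    q.1 ∈ (chartAt E y).source → ∀ v, Kc g j x q v = Kc g j y q v := by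
  induction j with
  | zero =>
    intro q hu hx hy v
    have h : C2 (fun s => unloc (M := M) y s) (loc y q) :=
      C2.of_unloc (f := id) ((chartAt E y).map_source hy) contDiffAt_id
    have e := unloc_loc hy
    have k : ∀ a, MC g (fun s => unloc (M := M) y s) (loc y q) (XX (Gc g y) (loc y q) (a, 0)) =
        (a, 0) := fun a => by
      have := hg.mc_chart h (e.symm ▸ hu) (y := y) (e.symm ▸ hy) (XX (Gc g y) (loc y q) (a, 0))
      rw [(unloc_ev (f := fun s => s) continuousAt_id ((chartAt E y).map_source hy)).2.fderiv_eq,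
        fderiv_fun_id, e] at this
      exact (XX_inj ((loc_unit hy).2 hu) this).symm
    have s := fun y' hy' => (hg.struct h (e.symm ▸ hu) (y := y') hy'
      (XX (Gc g y) (loc y q) (v 0, 0)) (XX (Gc g y) (loc y q) (v 1, 0))).2 (v 2)
    have := (s x (e.symm ▸ hx)).symm.trans (s y (e.symm ▸ hy))
    have hv : v = ![v 0, v 1, v 2] := by ext1 i; fin_cases i <;> rfl
    rw [k, k, e, sub_left_inj] at this
    rw [hv]
    exact this
  | succ j ih =>
    intro q hu hx hy v
    have d : HasDerivAt (fun s : ℝ => loc y q + s • XX (Gc g y) (loc y q) (v 0, 0))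
        (XX (Gc g y) (loc y q + (0 : ℝ) • XX (Gc g y) (loc y q) (v 0, 0)) (v 0, 0)) 0 := by
      simpa using ((hasDerivAt_id (0 : ℝ)).smul_const _).const_add (loc y q)
    have h := hg.vel_unloc (y := y) (by simp [loc, hy]) d
    have e : unloc y (loc y q + (0 : ℝ) •
      XX (Gc g y) (loc y q) (v 0, 0)) = q := by simpa using unloc_loc hy
    have a := hg.Kc_deriv h (e.symm ▸ hu) (y := x) (e.symm ▸ hx) j (Fin.tail v)
    have b := hg.Kc_deriv h (e.symm ▸ hu) (y := y) (e.symm ▸ hy) j (Fin.tail v)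
    have := b.unique (a.congr_of_eventuallyEq (by
      filter_upwards [ev_unit h.1 (h.2 _ (mem_chart_source E _)).continuousAt (e.symm ▸ hu),
        ev_src h.1 (y := x) (e.symm ▸ hx), ev_src h.1 (y := y) (e.symm ▸ hy)] with s h1 h2 h3
      exact (ih _ h1 h2 h3 _).symm))
    rw [e, Fin.cons_self_tail] at this
    exact this.symm

theorem PM.K_deriv (hg : PM g) {a : E} (h : Vel g c t (a, 0)) (hu : IsUnit (c t).2) (j : ℕ)
    (v : Fin (3 + j) → E) : HasDerivAt (fun s => Kc g j (c s).1 (c s) v)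
      (Kc g (j + 1) (c t).1 (c t) (Fin.cons a v)) t := by
  refine (hg.Kc_deriv h hu (mem_chart_source E _) j v).congr_of_eventuallyEq ?_
  filter_upwards [ev_unit h.1 (h.2 _ (mem_chart_source E _)).continuousAt hu,
    ev_src h.1 (mem_chart_source E _)] with s h1 h2
  exact hg.Kc_indep j _ h1 (mem_chart_source E _) h2 v

end Pool.Agent.H.MP_611141_gt
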