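import Pool.Agent.H.MP_611141_gt.F
import Pool.Agent.H.MP_611141_gt.A

open Filter Topology Set Metric
open scoped ContDiff Manifold

set_option maxSynthPendingDepth 3

namespace Pool.Agent.H.MP_611141_gt

variable {E : Type*} [NormedAddCommGroup E] [NormedSpace ℝ E] {M : Type*} [TopologicalSpace M]
  [ChartedSpace E M] [IsManifold 𝓘(ℝ, E) ∞ M] [FiniteDimensional ℝ E]
  {g : M → E →L[ℝ] E →L[ℝ] ℝ} {c c' : ℝ → Q E M} {t : ℝ} {a : E} {I J : Set ℝ}

theorem PM.lflow (hg : PM g) (a : E) (q : Q E M) : ∃ ε > 0, ∃ Φ : St E × ℝ → St E,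
    ∀ x ∈ ball (loc q.1 q) ε, ∀ t ∈ Ioo (-ε) ε, Φ (x, 0) = x ∧
      C2 (fun p => unloc q.1 (Φ p)) (x, t) ∧
      ∀ s, Vel g (fun r => unloc q.1 (Φ (x, r - s))) (t + s) (a, 0) := by
  obtain ⟨ε, ε0, Φ, h⟩ := flow ((chartAt E q.1).open_target.prod isOpen_univ)
    ((hg.met q.1).XX_c2 a) (p := loc q.1 q) ⟨mem_chart_target E q.1, trivial⟩
  refine ⟨ε, ε0, Φ, fun x hx t ht => ?_⟩
  obtain ⟨h1, h2, h3, h4⟩ := h x hx t ht
  refine ⟨h2, C2.of_unloc h1.1 h3, fun s => hg.vel_unloc (f := fun r => Φ (x, r - s)) ?_ ?_⟩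
  · simpa using h1.1
  · simp only [add_sub_cancel_right]
    exact HasDerivAt.comp_sub_const (f := fun s => Φ (x, s)) (t + s) s (by simpa using h4)

theorem PM.lex (hg : PM g) (a : E) (q : Q E M) (s : ℝ) : ∃ ε > 0, ∃ c : ℝ → Q E M, c s = q ∧
    ∀ t ∈ Ioo (s - ε) (s + ε), Vel g c t (a, 0) := by
  obtain ⟨ε, ε0, Φ, h⟩ := hg.lflow a q
  refine ⟨ε, ε0, fun r => unloc q.1 (Φ (loc q.1 q, r - s)), ?_, fun t ht => ?_⟩
  · simp only [sub_self, (h _ (mem_ball_self ε0) 0 ⟨by linarith, ε0⟩).1]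
    exact unloc_loc (mem_chart_source E _)
  · simpa using (h _ (mem_ball_self ε0) (t - s) ⟨by linarith [ht.1], by linarith [ht.2]⟩).2.2 s

theorem PM.luniq (hg : PM g) (h : ∀ᶠ s in 𝓝 t, Vel g c s (a, 0))
    (h' : ∀ᶠ s in 𝓝 t, Vel g c' s (a, 0)) (e : c t = c' t) : c =ᶠ[𝓝 t] c' := by
  have m := mem_chart_source E (c t).1
  obtain ⟨K, S, hS, hK⟩ := ((((hg.met (c t).1).XX_c2 a).contDiffAt
    (((chartAt E (c t).1).open_target.prod isOpen_univ).mem_nhds (x := loc (c t).1 (c t))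
      ⟨mem_chart_target E _, trivial⟩)).of_le one_le_two).exists_lipschitzOnWith
  have s1 := ev_src h.self_of_nhds.1 m
  have s2 := ev_src h'.self_of_nhds.1 (e ▸ m : (c' t).1 ∈ (chartAt E (c t).1).source)
  have := ODE_solution_unique_of_eventually (v := fun _ p => XX (Gc g (c t).1) p (a, 0))
    (s := fun _ => S) (f := fun s => loc (c t).1 (c s)) (g := fun s => loc (c t).1 (c' s))
    (t₀ := t) (.of_forall fun _ => hK)
    (((h.and s1).mono fun s hs => hs.1.2 _ hs.2).and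
      ((h.self_of_nhds.2 _ m).continuousAt.eventually_mem hS))
    (((h'.and s2).mono fun s hs => hs.1.2 _ hs.2).and
      ((h'.self_of_nhds.2 _ s2.self_of_nhds).continuousAt.eventually_mem (e ▸ hS)))
    (congrArg _ e)
  filter_upwards [this, s1, s2] with s h1 h2 h3
  rw [← unloc_loc h2, h1, unloc_loc h3]

theorem PM.pres (hg : PM g) (hI : IsOpen I) (hc : I.OrdConnected)
    (h : ∀ t ∈ I, Vel g c t (a, 0)) {s : ℝ} (hs : s ∈ I) (ht : t ∈ I) (u v : E) :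
    g (c t).1 ((c t).2 u) ((c t).2 v) = g (c s).1 ((c s).2 u) ((c s).2 v) := by
  have d : ∀ t ∈ I, HasDerivAt (fun s => g (c s).1 ((c s).2 u) ((c s).2 v)) 0 t := fun t ht =>
    ((hg.met _).pres (mem_chart_target E _) ((h t ht).2 _ (mem_chart_source E _)) u
      v).congr_of_eventuallyEq ((ev_src (h t ht).1 (mem_chart_source E _)).mono
        fun _ hs => g_loc hs u v)
  exact hI.is_const_of_deriv_eq_zero hc.isPreconnected
    (fun t ht => (d t ht).differentiableAt.differentiableWithinAt) (fun t ht => (d t ht).deriv) ht hs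

theorem unit_of {η : E →L[ℝ] E →L[ℝ] ℝ} (hη : ∀ u, (∀ v, η u v = 0) → u = 0) {B : E →L[ℝ] E →L[ℝ] ℝ}
    {e : E →L[ℝ] E} (h : ∀ u v, B (e u) (e v) = η u v) : IsUnit e := by
  have := FiniteDimensional.complete ℝ E
  have i : Function.Injective e := (injective_iff_map_eq_zero _).2 fun u hu =>
    hη u fun v => by simp [← h, hu]
  exact ContinuousLinearMap.isUnit_iff_bijective.2
    ⟨i, LinearMap.surjective_of_injective (f := (e : E →ₗ[ℝ] E)) i⟩

omit [FiniteDimensional ℝ E] in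
theorem Vel.vel_eq (h : Vel g c t (a, 0)) : vel E (fun s => (c s).1) t = (c t).2 a := by
  have := (d_fst (h.2 _ (mem_chart_source E _))).deriv
  rw [loc_self] at this
  exact this

omit [FiniteDimensional ℝ E] in
theorem geo_of (hI : IsOpen I) (hc : I.OrdConnected) (hn : I.Nonempty)
    (h : ∀ t ∈ I, Vel g c t (a, 0)) : Geo g (fun s => (c s).1) I := by
  refine ⟨hI, hc, hn, fun t ht => ?_⟩
  have d : ∀ᶠ s in 𝓝 t, HasDerivAt (chartAt E (c t).1 ∘ fun s => (c s).1)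
      ((loc (c t).1 (c s)).2 a) s := by
    filter_upwards [hI.mem_nhds ht, ev_src (h t ht).1 (mem_chart_source E _)] with s h1 h2
    exact d_fst ((h s h1).2 _ h2)
  refine ⟨(h t ht).1, d.mono fun s hs => hs.differentiableAt, (((d_snd ((h t ht).2 _
    (mem_chart_source E _))).clm_apply (hasDerivAt_const t a)).congr_of_eventuallyEq
      (d.mono fun s hs => hs.deriv)).congr_deriv ?_⟩
  simp [(h t ht).vel_eq, loc_self, XX, Ga_eq]

theorem PM.of_geo (hg : PM g) {γ : ℝ → M} (h : Geo g γ I) {l : E →L[ℝ] ℝ} (hl : l a = 1)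
    (ht : t ∈ I) : Vel g (fun s => (γ s, l.smulRight (vel E γ s))) t (a, 0) := by
  obtain ⟨h1, h2, h3⟩ := h.2.2.2 t ht
  have e : (fun s => loc (γ t) ((γ s, l.smulRight (vel E γ s)) : Q E M)) =ᶠ[𝓝 t] fun s =>
      ((chartAt E (γ t) ∘ γ) s, ContinuousLinearMap.smulRightL ℝ E E l
        (deriv (chartAt E (γ t) ∘ γ) s)) := by
    filter_upwards [h.1.mem_nhds ht, ev_src h1 (mem_chart_source E _)] with s k1 k2
    obtain ⟨k3, k4, -⟩ := h.2.2.2 s k1
    have d := (((tr_sm k2 (mem_chart_source E _)).differentiableAt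
      (by simp)).hasFDerivAt.comp_hasDerivAt s k4.self_of_nhds.hasDerivAt).congr_of_eventuallyEq
      (f₁ := chartAt E (γ t) ∘ γ) ((ev_src k3 (mem_chart_source E _)).mono fun r hr => by simp [hr])
    refine Prod.ext rfl ?_
    ext v
    simp [loc, d.deriv, vel, Jc]
  refine hg.vel_intro h1 (mem_chart_source E _) (((h2.self_of_nhds.hasDerivAt.prodMk
    ((ContinuousLinearMap.smulRightL ℝ E E l).hasFDerivAt.comp_hasDerivAt t
      h3)).congr_of_eventuallyEq e).congr_deriv (Prod.ext ?_ ?_))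
  · simp [loc, Jc_self (mem_chart_source E (γ t)), XX, hl, vel]
  · ext v
    simp [loc, Jc_self (mem_chart_source E (γ t)), XX, hl, Ga_eq]

variable [T2Space M]

theorem PM.uniq (hg : PM g) (hI : IsOpen I) (hc : I.OrdConnected)
    (h : ∀ t ∈ I, Vel g c t (a, 0)) (h' : ∀ t ∈ I, Vel g c' t (a, 0)) (ht : t ∈ I)
    (e : c t = c' t) : EqOn c c' I := by
  have l : ∀ t ∈ I, c t = c' t → c =ᶠ[𝓝 t] c' := fun t ht =>
    hg.luniq ((hI.eventually_mem ht).mono h) ((hI.eventually_mem ht).mono h')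
  have := hc.isPreconnected.subset_of_closure_inter_subset (u := {t | c =ᶠ[𝓝 t] c'})
    isOpen_setOf_eventually_nhds ⟨t, ht, l t ht e⟩ fun s hs => l s hs.2 (by
      have f : ∃ᶠ r in 𝓝 s, c r = c' r :=
        (mem_closure_iff_frequently.1 hs.1).mono fun r hr => EventuallyEq.eq_of_nhds hr
      have e1 : (c s).1 = (c' s).1 := tendsto_nhds_unique_of_frequently_eq (h s hs.2).1
        (h' s hs.2).1 (f.mono fun r hr => congrArg _ hr)
      have m := mem_chart_source E (c s).1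
      have e2 : loc (c s).1 (c s) = loc (c s).1 (c' s) := tendsto_nhds_unique_of_frequently_eq
        ((h s hs.2).2 _ m).continuousAt
        ((h' s hs.2).2 _ (e1 ▸ m)).continuousAt (f.mono fun r hr => congrArg _ hr)
      rw [← unloc_loc m, e2, unloc_loc (e1 ▸ m)])
  exact fun s hs => EventuallyEq.eq_of_nhds (this hs)

theorem PM.max (hg : PM g) (a : E) (q : Q E M) (s : ℝ) : ∃ (c : ℝ → Q E M) (I : Set ℝ), IsOpen I ∧
    I.OrdConnected ∧ s ∈ I ∧ c s = q ∧ (∀ t ∈ I, Vel g c t (a, 0)) ∧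
    ∀ (c' : ℝ → Q E M) (J : Set ℝ), IsOpen J → J.OrdConnected → (∀ t ∈ J, Vel g c' t (a, 0)) →
      ∀ t ∈ I, t ∈ J → c' t = c t → J ⊆ I := by
  classical
  let S : Set ((ℝ → Q E M) × Set ℝ) := {p | IsOpen p.2 ∧ p.2.OrdConnected ∧ s ∈ p.2 ∧ p.1 s = q ∧
    ∀ t ∈ p.2, Vel g p.1 t (a, 0)}
  let c : ℝ → Q E M := fun t => if h : ∃ p ∈ S, t ∈ p.2 then h.choose.1 t else q
  have e : ∀ p ∈ S, EqOn c p.1 p.2 := fun p hp t ht => by
    have h : ∃ p ∈ S, t ∈ p.2 := ⟨p, hp, ht⟩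
    obtain ⟨k, kt⟩ := h.choose_spec
    exact (dif_pos h).trans (hg.uniq (k.1.inter hp.1) (k.2.1.inter hp.2.1)
      (fun t ht => k.2.2.2.2 t ht.1) (fun t ht => hp.2.2.2.2 t ht.2) ⟨k.2.2.1, hp.2.2.1⟩
      (k.2.2.2.1.trans hp.2.2.2.1.symm) ⟨kt, ht⟩)
  obtain ⟨ε, ε0, c0, h0, h1⟩ := hg.lex a q s
  have m0 : (c0, Ioo (s - ε) (s + ε)) ∈ S :=
    ⟨isOpen_Ioo, ordConnected_Ioo, ⟨by linarith, by linarith⟩, h0, h1⟩
  have o : IsOpen (⋃₀ (Prod.snd '' S)) := isOpen_sUnion (by rintro _ ⟨p, hp, rfl⟩; exact hp.1)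
  have oc : (⋃₀ (Prod.snd '' S)).OrdConnected := (isPreconnected_sUnion s _
    (by rintro _ ⟨p, hp, rfl⟩; exact hp.2.2.1)
    (by rintro _ ⟨p, hp, rfl⟩; exact hp.2.1.isPreconnected)).ordConnected
  have sI : s ∈ ⋃₀ (Prod.snd '' S) := ⟨_, ⟨_, m0, rfl⟩, m0.2.2.1⟩
  have v : ∀ t ∈ ⋃₀ (Prod.snd '' S), Vel g c t (a, 0) := by
    rintro t ⟨_, ⟨p, hp, rfl⟩, ht⟩
    exact (hp.2.2.2.2 t ht).congr ((hp.1.eventually_mem ht).mono (e p hp))
  have cs : c s = q := (e _ m0 m0.2.2.1).trans h0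
  refine ⟨c, _, o, oc, sI, cs, v, fun c' J hJ hJ' h t ht ht' et => ?_⟩
  have u := hg.uniq (o.inter hJ) (oc.inter hJ') (fun t ht => v t ht.1) (fun t ht => h t ht.2)
    ⟨ht, ht'⟩ et.symm
  refine subset_union_right.trans (subset_sUnion_of_mem ⟨((⋃₀ (Prod.snd '' S)).piecewise c c',
    ⋃₀ (Prod.snd '' S) ∪ J), ⟨o.union hJ, (oc.isPreconnected.union t ht ht'
      hJ'.isPreconnected).ordConnected, .inl sI, (piecewise_eq_of_mem _ _ _ sI).trans cs, ?_⟩, rfl⟩)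
  rintro r (hr | hr)
  · exact (v r hr).congr ((o.eventually_mem hr).mono fun _ => piecewise_eq_of_mem _ c c')
  · refine (h r hr).congr ((hJ.eventually_mem hr).mono fun w hw => ?_)
    by_cases k : w ∈ ⋃₀ (Prod.snd '' S)
    · exact (piecewise_eq_of_mem _ _ _ k).trans (u ⟨k, hw⟩)
    · exact piecewise_eq_of_notMem _ c c' k

theorem PM.guniq [Nontrivial E] (hg : PM g) {γ γ' : ℝ → M} (h : Geo g γ I) (h' : Geo g γ' J)
    (ht : t ∈ I ∩ J) (e : γ t = γ' t) (e' : vel E γ t = vel E γ' t) : EqOn γ γ' (I ∩ J) := by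
  obtain ⟨a, ha⟩ := exists_ne (0 : E)
  obtain ⟨l, hl⟩ := SeparatingDual.exists_eq_one (R := ℝ) ha
  exact fun s hs => congrArg Prod.fst (hg.uniq (h.1.inter h'.1) (h.2.1.inter h'.2.1)
    (fun t ht => hg.of_geo h hl ht.1) (fun t ht => hg.of_geo h' hl ht.2) ht (by rw [e, e']) hs)

omit [IsManifold 𝓘(ℝ, E) ∞ M] [FiniteDimensional ℝ E] [T2Space M] in
theorem vel_congr {γ γ' : ℝ → M} (h : γ =ᶠ[𝓝 t] γ') : vel E γ t = vel E γ' t := by
  rw [vel, vel, h.self_of_nhds, (h.fun_comp _).deriv_eq]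

theorem PM.glob (hg : PM g) {P : ℝ → Prop} (hP : Complete g P) {q : Q E M} (hu : IsUnit q.2)
    (a0 : a ≠ 0) (ha : P (g q.1 (q.2 a) (q.2 a))) :
    ∃ c : ℝ → Q E M, c 0 = q ∧ ∀ t, Vel g c t (a, 0) := by
  have := nontrivial_of_ne _ _ a0
  obtain ⟨c, I, h1, h2, h3, h4, h5, h6⟩ := hg.max a q 0
  have gI := geo_of h1 h2 ⟨0, h3⟩ h5
  have := hP _ I gI (fun γ J hγ IJ e => ?_) fun t ht => ?_
  · exact ⟨c, h4, fun t => h5 t (this ▸ mem_univ t)⟩
  · refine (hγ.2.1.isPreconnected.subset_of_closure_inter_subset h1 ⟨0, IJ h3, h3⟩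
      fun s hs => ?_).antisymm IJ
    obtain ⟨ε, ε0, d, d1, d2⟩ := hg.lex (vel E γ s) (γ s, 1) s
    have m : s ∈ Ioo (s - ε) (s + ε) := ⟨by linarith, by linarith⟩
    have u := hg.guniq (geo_of isOpen_Ioo ordConnected_Ioo ⟨s, m⟩ d2) hγ ⟨m, hs.2⟩ (by rw [d1])
      (by rw [(d2 s m).vel_eq, d1]; rfl)
    obtain ⟨t, ht, k1, k2⟩ := ((mem_closure_iff_frequently.1 hs.1).and_eventually
      ((ev_unit (d2 s m).1 ((d2 s m).2 _ (mem_chart_source E _)).continuousAt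
        (d1 ▸ isUnit_one)).and (isOpen_Ioo.eventually_mem m))).exists
    have k3 : (fun s => (d s).1) =ᶠ[𝓝 t] fun s => (c s).1 := by
      filter_upwards [h1.mem_nhds ht, isOpen_Ioo.mem_nhds k2] with r r1 r2
      exact (u ⟨r2, IJ r1⟩).trans (e r1).symm
    have k4 := vel_congr (E := E) k3
    rw [(d2 t k2).vel_eq, (h5 t ht).vel_eq] at k4
    refine h6 _ _ isOpen_Ioo ordConnected_Ioo (fun r hr => (d2 r hr).mul
      (u := fun _ => Ring.inverse (d t).2 * (c t).2) (b := a)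
      ((hasDerivAt_const _ _).congr_deriv (by simp)) ?_) t ht k2 (Prod.ext k3.self_of_nhds ?_) m
    · simp [← k4, inv_ap k1]
    · simp [← mul_assoc, Ring.mul_inverse_cancel _ k1]
  · have p := fun u v => hg.pres h1 h2 h5 h3 ht u v
    rw [(h5 t ht).vel_eq, p, h4]
    refine ⟨fun z => a0 ?_, ha⟩
    rw [← inv_ap hu a, hg.nd q.1 (q.2 a) fun v => by
      rw [← ap_inv hu v, ← h4, ← p, z, map_zero]; rfl, map_zero]

end Pool.Agent.H.MP_611141_gt
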