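import Pool.Agent.H.MP_611141_gt.G

open Filter Topology Set Metric
open scoped ContDiff Manifold

set_option maxSynthPendingDepth 3

namespace Pool.Agent.H.MP_611141_gt

variable {E : Type*} [NormedAddCommGroup E] [NormedSpace ℝ E] {M : Type*} [TopologicalSpace M]
  [ChartedSpace E M] [IsManifold 𝓘(ℝ, E) ∞ M] [FiniteDimensional ℝ E]
  {g : M → E →L[ℝ] E →L[ℝ] ℝ} {c : ℝ → Q E M} {t : ℝ} {a : E} {I : Set ℝ}
  {P : Type*} [NormedAddCommGroup P] [NormedSpace ℝ P]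

/-- bounds on all covariant derivatives of the curvature in a frame -/
def Bd (g : M → E →L[ℝ] E →L[ℝ] ℝ) (q : Q E M) (C : ℝ) : Prop :=
  ∀ j v, ‖Kc g j q.1 q v‖ ≤ C * ∏ i, ‖v i‖

theorem PM.K_zero (hg : PM g) {r : ℕ}
    (hr : ∀ y, ∀ z ∈ (chartAt E y).target, ∀ v, covR (Gc g y) r z v = 0) {j : ℕ} (hj : r ≤ j)
    (q : Q E M) (v : Fin (3 + j) → E) : Kc g j q.1 q v = 0 := by
  obtain ⟨i, rfl⟩ := Nat.exists_eq_add_of_le hj
  rw [Kc, (hg.met _).zero (hr _) i (loc q.1 q).1 (mem_chart_target E q.1), map_zero]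

theorem PM.bd_ex (hg : PM g) {r : ℕ}
    (hr : ∀ y, ∀ z ∈ (chartAt E y).target, ∀ v, covR (Gc g y) r z v = 0) (q : Q E M) :
    ∃ C, 0 ≤ C ∧ Bd g q C := by
  have : ∀ j, ∃ C, 0 ≤ C ∧ ∀ v, ‖Kc g j q.1 q v‖ ≤ C * ∏ i, ‖v i‖ := fun j => by
    obtain ⟨S, -, h⟩ := (hg.met q.1).good j
    refine ⟨‖(Ring.inverse (loc q.1 q).2).compContinuousMultilinearMap
      ((S (loc q.1 q).1).compContinuousLinearMap fun _ => (loc q.1 q).2)‖, norm_nonneg _,
      fun v => le_of_eq_of_le ?_ (ContinuousMultilinearMap.le_opNorm _ v)⟩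
    rw [Kc, h (loc q.1 q).1 (mem_chart_target E q.1)]
    rfl
  choose C C0 hC using this
  refine ⟨∑ j ∈ Finset.range r, C j, Finset.sum_nonneg fun j _ => C0 j, fun j v => ?_⟩
  rcases lt_or_ge j r with h | h
  · refine (hC j v).trans ?_
    gcongr
    exact Finset.single_le_sum (fun j _ => C0 j) (Finset.mem_range.2 h)
  · rw [hg.K_zero hr h, norm_zero]
    exact mul_nonneg (Finset.sum_nonneg fun j _ => C0 j) (by positivity)

theorem PM.bd_grow (hg : PM g) {r : ℕ}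
    (hr : ∀ y, ∀ z ∈ (chartAt E y).target, ∀ v, covR (Gc g y) r z v = 0) (hI : I.OrdConnected)
    (h : ∀ t ∈ I, Vel g c t (a, 0) ∧ IsUnit (c t).2) {s C T : ℝ} (hs : s ∈ I) (C0 : 0 ≤ C)
    (hC : Bd g (c s) C) (ht : t ∈ I) (hT : |t - s| ≤ T) : Bd g (c t) (C * (1 + ‖a‖ * T) ^ r) := by
  have T0 := (abs_nonneg _).trans hT
  have : ∀ i j, r ≤ j + i → ∀ t ∈ I ∩ closedBall s T, ∀ v,
      ‖Kc g j (c t).1 (c t) v‖ ≤ C * (1 + ‖a‖ * T) ^ i * ∏ i, ‖v i‖ := fun i => by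
    induction i with
    | zero =>
      intro j hj t _ v
      rw [hg.K_zero hr (j := j) hj, norm_zero]
      positivity
    | succ i ih =>
      intro j hj t ht v
      have k := (hI.convex.inter (convex_closedBall s T)).norm_image_sub_le_of_norm_hasDerivWithin_le
        (fun t ht => (hg.K_deriv (h t ht.1).1 (h t ht.1).2 j v).hasDerivWithinAt)
        (fun t ht => ih (j + 1) (by omega) t ht _) ⟨hs, mem_closedBall_self T0⟩ ht
      have e : ∏ i, ‖(Fin.cons a v : Fin (3 + j + 1) → E) i‖ = ‖a‖ * ∏ i, ‖v i‖ := by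
        simp [Fin.prod_univ_succ]
      replace k : _ ≤ C * (1 + ‖a‖ * T) ^ i * (‖a‖ * ∏ i, ‖v i‖) * T := k.trans (mul_le_mul
        (le_of_eq (congrArg _ e)) (mem_closedBall_iff_norm.1 ht.2) (norm_nonneg _) (by positivity))
      have k1 : C * 1 * ∏ i, ‖v i‖ ≤ C * (1 + ‖a‖ * T) ^ i * ∏ i, ‖v i‖ := by
        gcongr
        exact one_le_pow₀ (le_add_of_nonneg_right (by positivity))
      have k2 := hC j v
      refine (norm_le_norm_add_norm_sub' _ (Kc g j (c s).1 (c s) v)).trans ?_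
      rw [pow_succ]
      linarith
  exact fun j v => this r j (by omega) t ⟨ht, hT⟩ v

theorem MC_comp {P' : Type*} [NormedAddCommGroup P'] [NormedSpace ℝ P'] {Ψ : P → Q E M}
    {f : P' → P} {f' : P' →L[ℝ] P} {p : P'} (h : C2 Ψ (f p)) (hu : IsUnit (Ψ (f p)).2)
    (hf : HasFDerivAt f f' p) (k : P') : MC g (fun s => Ψ (f s)) p k = MC g Ψ (f p) (f' k) := by
  have m := mem_chart_source E (Ψ (f p)).1
  have u := (loc_unit m).2 hu
  have d := (((h.2 _ m).differentiableAt two_ne_zero).hasFDerivAt.comp p hf).fderiv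
  exact XX_inj u ((mc_spec (f := fun s => loc _ (Ψ (f s))) u k).trans
    ((congrArg (fun L : P' →L[ℝ] St E => L k) d).trans (mc_spec (f := fun s => loc _ (Ψ s)) u _).symm))

variable [T2Space M]

theorem PM.flow_c2 (hg : PM g) {H : P → ℝ → Q E M} (h : ∀ p t, Vel g (H p) t (a, 0)) {p : P}
    (h0 : C2 (fun p => H p 0) p) (s : ℝ) : C2 (fun y : P × ℝ => H y.1 y.2) (p, s) := by
  have key : ∀ s1, ∃ δ > 0, ∀ s ∈ ball s1 δ, C2 (fun p => H p s) p → ∀ s' ∈ ball s1 δ,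
      C2 (fun y : P × ℝ => H y.1 y.2) (p, s') := fun s1 => by
    obtain ⟨ε, ε0, Φ, hΦ⟩ := hg.lflow a (H p s1)
    have m := mem_chart_source E (H p s1).1
    obtain ⟨δ, δ0, hδ⟩ := eventually_nhds_iff_ball.1 ((ev_src (h p s1).1 m).and
      (((h p s1).2 _ m).continuousAt.eventually_mem (ball_mem_nhds _ ε0)))
    refine ⟨min δ (ε / 2), lt_min δ0 (half_pos ε0), fun s hs k s' hs' => ?_⟩
    obtain ⟨k1, k2⟩ := hδ s (ball_subset_ball (min_le_left _ _) hs)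
    have b : s' - s ∈ Ioo (-ε) ε := by
      have a1 := abs_lt.1 ((mem_ball_iff_norm.1 hs).trans_le (min_le_right _ _))
      have a2 := abs_lt.1 ((mem_ball_iff_norm.1 hs').trans_le (min_le_right _ _))
      constructor <;> linarith [a1.1, a1.2, a2.1, a2.2]
    refine (C2.comp (τ := fun y : P × ℝ => (loc (H p s1).1 (H y.1 s), y.2 - s)) (p' := (p, s'))
      (hΦ _ k2 _ b).2.1 ((ContDiffAt.comp (g := fun p' => loc (H p s1).1 (H p' s)) (p, s')
        (k.2 _ k1) contDiffAt_fst).prodMk (contDiffAt_snd.sub contDiffAt_const))).congr ?_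
    filter_upwards [prod_mem_nhds ((ev_src k.1 k1).and ((k.2 _ k1).continuousAt.eventually_mem
      (isOpen_ball.mem_nhds k2))) (Ioo_mem_nhds (show s - ε < s' by linarith [b.1])
        (show s' < s + ε by linarith [b.2]))] with y hy
    refine hg.uniq (c' := fun r => unloc (H p s1).1 (Φ (loc (H p s1).1 (H y.1 s), r - s)))
      isOpen_Ioo ordConnected_Ioo (fun t _ => h y.1 t) (fun t ht => ?_) (t := s)
      ⟨by linarith, by linarith⟩ ?_ hy.2
    · simpa using (hΦ _ hy.1.2 (t - s) ⟨by linarith [ht.1], by linarith [ht.2]⟩).2.2 s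
    · simp only [sub_self, (hΦ _ hy.1.2 0 ⟨by linarith, ε0⟩).1]
      exact (unloc_loc hy.1.1).symm
  have sl : ∀ s, C2 (fun y : P × ℝ => H y.1 y.2) (p, s) → C2 (fun p => H p s) p := fun s k =>
    C2.comp (τ := fun p => (p, s)) k (contDiffAt_id.prodMk contDiffAt_const)
  have cl : IsClopen {s | C2 (fun p => H p s) p} := by
    refine ⟨isClosed_of_closure_subset fun s hs => ?_, Metric.isOpen_iff.2 fun s hs => ?_⟩
    · obtain ⟨δ, δ0, k⟩ := key s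
      obtain ⟨r, r1, r2⟩ := mem_closure_iff_nhds.1 hs _ (ball_mem_nhds s δ0)
      exact sl s (k r r1 r2 s (mem_ball_self δ0))
    · obtain ⟨δ, δ0, k⟩ := key s
      exact ⟨δ, δ0, fun r hr => sl r (k s (mem_ball_self δ0) hs r hr)⟩
  obtain ⟨δ, δ0, k⟩ := key s
  exact k s (mem_ball_self δ0) ((cl.eq_univ ⟨0, h0⟩).ge (mem_univ s)) s (mem_ball_self δ0)

omit [T2Space M] in
theorem PM.jacobi (hg : PM g) {H : P → ℝ → Q E M} (h : ∀ p t, Vel g (H p) t (a, 0))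
    (hu : ∀ p t, IsUnit (H p t).2) (hc : ∀ y, C2 (fun y : P × ℝ => H y.1 y.2) y) :
    (∀ y, MC g (fun y : P × ℝ => H y.1 y.2) y (0, 1) = (a, 0)) ∧ ∀ p k s, ∃ J',
      HasDerivAt (fun s => MC g (fun y : P × ℝ => H y.1 y.2) (p, s) (k, 0)) J' s ∧ ∀ C, 0 ≤ C →
        Bd g (H p s) C → ‖J'‖ ≤ (‖a‖ + C * ‖a‖) * ‖MC g (fun y : P × ℝ => H y.1 y.2) (p, s) (k, 0)‖ := by
  have dl : ∀ (p : P) (s : ℝ), HasDerivAt (fun s => (p, s)) ((0 : P), (1 : ℝ)) s := fun p s =>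
    (hasDerivAt_const s p).prodMk (hasDerivAt_id s)
  have e : ∀ y, MC g (fun y : P × ℝ => H y.1 y.2) y (0, 1) = (a, 0) := fun y =>
    (hg.c2_vel (hc y) (hu _ _) (dl y.1 y.2) rfl).uniq (h y.1 y.2) (hu _ _)
  refine ⟨e, fun p k s => ?_⟩
  have d := ((hg.mc_c1 (hc (p, s)) (hu _ _)).differentiableAt one_ne_zero).hasFDerivAt
  have z : fderiv ℝ (MC g fun y : P × ℝ => H y.1 y.2) (p, s) (k, 0) (0, 1) = 0 := by
    have := (d.clm_apply (hasFDerivAt_const (0, 1) _)).unique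
      ((hasFDerivAt_const (a, 0) _).congr_of_eventuallyEq (.of_forall e))
    simpa using congrArg (fun L : P × ℝ →L[ℝ] St E => L (k, 0)) this
  obtain ⟨s1, s2⟩ := hg.struct (hc (p, s)) (hu _ _) (mem_chart_source E _) (0, 1) (k, 0)
  simp only [z, e, sub_zero, ContinuousLinearMap.zero_apply, zero_mul, mul_zero] at s1 s2
  refine ⟨fderiv ℝ (MC g fun y : P × ℝ => H y.1 y.2) (p, s) (0, 1) (k, 0),
    ((d.comp_hasDerivAt s (dl p s)).clm_apply (hasDerivAt_const s (k, 0))).congr_deriv (by simp),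
    fun C C0 hC => ?_⟩
  set J := MC g (fun y : P × ℝ => H y.1 y.2) (p, s) (k, 0)
  have n1 := mul_le_mul_of_nonneg_left (norm_fst_le J) (mul_nonneg C0 (norm_nonneg a))
  have n2 := mul_le_mul_of_nonneg_right (norm_snd_le J) (norm_nonneg a)
  have n3 := mul_nonneg (norm_nonneg a) (norm_nonneg J)
  have n4 := mul_nonneg C0 n3
  refine norm_prod_le_iff.2 ⟨s1 ▸ (J.2.le_opNorm a).trans (by linarith),
    ContinuousLinearMap.opNorm_le_bound _ (by positivity) fun w => ?_⟩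
  rw [s2]
  refine (hC 0 _).trans ((congrArg (C * ·) (Fin.prod_univ_three _)).trans_le ?_)
  show C * (‖a‖ * ‖J.1‖ * ‖w‖) ≤ _
  nlinarith [norm_nonneg w]

theorem PM.step (hg : PM g) {r : ℕ}
    (hr : ∀ y, ∀ z ∈ (chartAt E y).target, ∀ v, covR (Gc g y) r z v = 0) {Pr : ℝ → Prop}
    (hP : Complete g Pr) {η : E →L[ℝ] E →L[ℝ] ℝ} (hη : ∀ u, (∀ v, η u v = 0) → u = 0) {ι : Type*}
    (n : ι → E) (l : ι → E →L[ℝ] ℝ) (hn : ∀ i, n i ≠ 0 ∧ Pr (η (n i) (n i))) (S : Finset ι) :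
    ∀ C ε, 0 ≤ C → 0 < ε → ∃ δ > 0, ∃ C', 0 ≤ C' ∧ ∀ q : Q E M,
      (∀ u v, g q.1 (q.2 u) (q.2 v) = η u v) → Bd g q C → ∃ Ψ : E → Q E M, Ψ 0 = q ∧
        (∀ τ, C2 Ψ τ ∧ ∀ u v, g (Ψ τ).1 ((Ψ τ).2 u) ((Ψ τ).2 v) = η u v) ∧ ∀ τ, ‖τ‖ ≤ δ →
          Bd g (Ψ τ) C' ∧ ∀ k, ‖MC g Ψ τ k - ((∑ i ∈ S, (l i).smulRight (n i)) k, 0)‖ ≤ ε * ‖k‖ := by
  classical
  induction S using Finset.induction_on with
  | empty =>
    refine fun C ε C0 ε0 => ⟨1, one_pos, C, C0, fun q hq hC => ⟨fun _ => q, rfl, fun τ =>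
      ⟨⟨continuousAt_const, fun _ _ => contDiffAt_const⟩, hq⟩, fun τ _ => ⟨hC, fun k => ?_⟩⟩⟩
    have : MC g (fun _ : E => q) τ k = (0, 0) := by simp [MC, mc]
    simp only [this, Finset.sum_empty, ContinuousLinearMap.zero_apply, sub_self, norm_zero]
    positivity
  | insert i S hi ih =>
    intro C ε C0 ε0
    obtain ⟨δ, δ0, C', C'0, ih⟩ := ih C (ε / 2) C0 (half_pos ε0)
    set π := ∑ i ∈ S, (l i).smulRight (n i)
    let C'' := C' * (1 + ‖n i‖ * 1) ^ r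
    let D := ‖n i‖ + C'' * ‖n i‖
    have D0 : 0 ≤ D := by positivity
    obtain ⟨T, T0, T1, T2, T3⟩ : ∃ T : ℝ, 0 < T ∧ T ≤ 1 ∧ D * T ≤ 1 / 2 ∧
        2 * D * T * (‖π‖ + ε / 2) ≤ ε / 2 := by
      have t1 : ∀ᶠ T in 𝓝 (0 : ℝ), T < 1 ∧ D * T < 1 / 2 ∧ 2 * D * T * (‖π‖ + ε / 2) < ε / 2 :=
        (eventually_lt_nhds one_pos).and ((ContinuousAt.eventually_lt (by fun_prop)
          continuousAt_const (by simp)).and (ContinuousAt.eventually_lt (by fun_prop)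
          continuousAt_const (by simpa using ε0)))
      obtain ⟨T, a1, a2⟩ := ((t1.filter_mono nhdsWithin_le_nhds).and
        (self_mem_nhdsWithin (s := Ioi 0))).exists
      exact ⟨T, a2, a1.1.le, a1.2.1.le, a1.2.2.le⟩
    refine ⟨min δ (T / (‖l i‖ + 1)), by positivity, C'', by positivity, fun q hq hC => ?_⟩
    obtain ⟨Ψ, h0, h1, h2⟩ := ih q hq hC
    choose H H0 hH using fun τ => hg.glob hP (unit_of hη (h1 τ).2) (hn i).1
      (((h1 τ).2 _ _).symm ▸ (hn i).2)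
    have iso : ∀ τ s u v, g (H τ s).1 ((H τ s).2 u) ((H τ s).2 v) = η u v := fun τ s u v => by
      rw [hg.pres isOpen_univ ordConnected_univ (fun t _ => hH τ t) (mem_univ 0) (mem_univ s), H0,
        (h1 τ).2]
    have hu := fun τ s => unit_of hη (iso τ s)
    have e0 : (fun τ => H τ 0) = Ψ := funext H0
    have hc := fun y : E × ℝ => hg.flow_c2 hH (e0 ▸ (h1 y.1).1) y.2
    obtain ⟨j1, j2⟩ := hg.jacobi hH hu hc
    refine ⟨fun τ => H τ (l i τ), by simp [H0, h0], fun τ => ⟨C2.comp (τ := fun τ => (τ, l i τ))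
      (p' := τ) (hc (τ, l i τ)) (contDiffAt_id.prodMk (l i).contDiff.contDiffAt), iso τ _⟩, fun τ hτ => ?_⟩
    obtain ⟨b1, b2⟩ := h2 τ (hτ.trans (min_le_left _ _))
    have lT : |l i τ| ≤ T := by
      have a1 := (le_div_iff₀ (by positivity)).1 (hτ.trans (min_le_right _ _))
      have a2 := (l i).le_opNorm τ
      rw [Real.norm_eq_abs] at a2
      nlinarith [norm_nonneg τ]
    have bd : ∀ s, |s| ≤ T → Bd g (H τ s) C'' := fun s hs => hg.bd_grow hr ordConnected_univ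
      (fun t _ => ⟨hH τ t, hu τ t⟩) (mem_univ 0) C'0 ((H0 τ).symm ▸ b1) (mem_univ s)
      (by simpa using hs.trans T1)
    refine ⟨bd _ lT, fun k => ?_⟩
    choose J' d1 d2 using j2 τ k
    have s1 := short D0 T2 d1 (fun s hs => d2 s _ (by positivity) (bd s hs)) lT
    have m0 := MC_comp (g := g) (f := fun τ => (τ, (0 : ℝ))) (hc (τ, 0)) (hu _ _)
      (hasFDerivAt_prodMk_left τ 0) k
    have m1 := MC_comp (g := g) (f := fun τ => (τ, l i τ)) (hc (τ, l i τ)) (hu _ _)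
      ((hasFDerivAt_id τ).prodMk (l i).hasFDerivAt) k
    have sp : ((ContinuousLinearMap.id ℝ E).prod (l i)) k = (k, 0) + l i k • (0, 1) := by simp
    rw [sp, map_add, map_smul, j1] at m1
    simp only [e0, ContinuousLinearMap.inl_apply] at m0
    rw [← m0] at s1
    have s2 : ‖MC g Ψ τ k‖ ≤ (‖π‖ + ε / 2) * ‖k‖ := by
      have a1 := norm_le_norm_add_norm_sub' (MC g Ψ τ k) (π k, 0)
      have a2 := π.le_opNorm k
      have a3 := b2 k
      have a4 : ‖((π k, 0) : St E)‖ = ‖π k‖ := by simp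
      linarith
    have s3 : MC g (fun τ => H τ (l i τ)) τ k - ((∑ i ∈ insert i S, (l i).smulRight (n i)) k, 0) =
        MC g (fun y : E × ℝ => H y.1 y.2) (τ, l i τ) (k, 0) - MC g Ψ τ k +
          (MC g Ψ τ k - (π k, 0)) := by
      rw [m1, Finset.sum_insert hi]
      refine Prod.ext ?_ ?_ <;> simp [π]
      abel
    rw [s3]
    refine (norm_add_le_of_le s1 (b2 k)).trans ?_
    have := mul_le_mul_of_nonneg_left s2 (show 0 ≤ 2 * D * T by positivity)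
    nlinarith [norm_nonneg k]

theorem PM.unif (hg : PM g) {r : ℕ}
    (hr : ∀ y, ∀ z ∈ (chartAt E y).target, ∀ v, covR (Gc g y) r z v = 0) {Pr : ℝ → Prop}
    (hP : Complete g Pr) {η : E →L[ℝ] E →L[ℝ] ℝ} (hη : ∀ u, (∀ v, η u v = 0) → u = 0)
    (hs : Submodule.span ℝ {v | v ≠ 0 ∧ Pr (η v v)} = ⊤) {C : ℝ} (C0 : 0 ≤ C) (b : E) :
    ∃ T > 0, ∀ q : Q E M, (∀ u v, g q.1 (q.2 u) (q.2 v) = η u v) → Bd g q C → ∀ s,
      ∃ c : ℝ → Q E M, c s = q ∧ ∀ t ∈ Ioo (s - T) (s + T), Vel g c t (b, 0) := by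
  have := FiniteDimensional.complete ℝ E
  obtain ⟨S, S1, S2, S3⟩ := exists_linearIndependent ℝ {v | v ≠ 0 ∧ Pr (η v v)}
  let B := Module.Basis.mk S3 (by rw [Subtype.range_coe, S2, hs])
  have := FiniteDimensional.fintypeBasisIndex B
  obtain ⟨δ, δ0, C', -, h⟩ := hg.step hr hP hη B (fun i => (B.coord i).toContinuousLinearMap)
    (fun i => by simpa [B] using S1 i.2) Finset.univ C (1 / 2) C0 one_half_pos
  refine ⟨min δ 1 / (4 * ‖b‖ + 1), by positivity, fun q hq hC s => ?_⟩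
  obtain ⟨Ψ, h0, h1, h2⟩ := h q hq hC
  have hu := fun τ => unit_of hη (h1 τ).2
  let θ : E → E →L[ℝ] E := fun τ => ContinuousLinearMap.fst ℝ _ _ ∘L MC g Ψ τ
  have k : ∀ p ∈ closedBall ((0, 1) : St E) (min δ 1), IsUnit (θ p.1) ∧ ‖p.2‖ ≤ 2 ∧
      (∀ w, ‖Ring.inverse (θ p.1) w‖ ≤ 2 * ‖w‖) ∧ ∀ w, ‖(MC g Ψ p.1 w).2‖ ≤ 1 / 2 * ‖w‖ :=
    fun p hp => by
    have a0 := norm_prod_le_iff.1 (mem_closedBall_iff_norm.1 hp)
    have a1 := fun w => norm_prod_le_iff.1 ((h2 p.1 (by simpa using a0.1.trans (min_le_left _ _))).2 w)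
    simp only [ContinuousLinearMap.sum_apply, ContinuousLinearMap.smulRight_apply,
      LinearMap.coe_toContinuousLinearMap', Module.Basis.coord_apply, B.sum_repr, Prod.fst_sub,
      Prod.snd_sub, sub_zero] at a1
    have a2 : ∀ w, ‖w‖ ≤ 2 * ‖θ p.1 w‖ := fun w => by
      have := norm_le_norm_add_norm_sub (MC g Ψ p.1 w).1 w
      linarith [(a1 w).1, show ‖θ p.1 w‖ = ‖(MC g Ψ p.1 w).1‖ from rfl]
    have i : Function.Injective (θ p.1) := (injective_iff_map_eq_zero _).2 fun u hu => by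
      simpa [hu] using a2 u
    have u : IsUnit (θ p.1) := ContinuousLinearMap.isUnit_iff_bijective.2
      ⟨i, LinearMap.surjective_of_injective (f := (θ p.1 : E →ₗ[ℝ] E)) i⟩
    refine ⟨u, ?_, fun w => by simpa only [ap_inv u] using a2 (Ring.inverse (θ p.1) w),
      fun w => (a1 w).2⟩
    have a3 := norm_le_norm_add_norm_sub' p.2 1
    have a4 : ‖(1 : E →L[ℝ] E)‖ ≤ 1 := ContinuousLinearMap.norm_id_le
    have a5 : ‖p.2 - 1‖ ≤ 1 := a0.2.trans (min_le_right _ _)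
    linarith
  obtain ⟨α, a0, hα⟩ := pl (V := fun p : St E => (Ring.inverse (θ p.1) (p.2 b),
    -(MC g Ψ p.1 (Ring.inverse (θ p.1) (p.2 b))).2 * p.2)) (p := (0, 1)) (lt_min δ0 one_pos)
    (show 0 < 4 * ‖b‖ + 1 by positivity) (fun p hp => by
      have c1 := ContDiffAt.comp (g := MC g Ψ) p (hg.mc_c1 (h1 p.1).1 (hu _)) contDiffAt_fst
      obtain ⟨w, hw⟩ := (k p hp).1
      have c2 := (ContDiffAt.comp (g := Ring.inverse) (f := fun p : St E => θ p.1) p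
        (hw ▸ contDiffAt_ringInverse ℝ w) (contDiffAt_const.clm_comp c1)).clm_apply
        (contDiffAt_snd.clm_apply (contDiffAt_const (c := b)))
      exact c2.prodMk ((c1.clm_apply c2).snd.neg.mul contDiffAt_snd)) (fun p hp => by
      obtain ⟨-, k2, k3, k4⟩ := k p hp
      have b1 : ‖Ring.inverse (θ p.1) (p.2 b)‖ ≤ 4 * ‖b‖ := (k3 _).trans (by
        linarith [p.2.le_of_opNorm_le k2 b])
      refine norm_prod_le_iff.2 ⟨by linarith, (norm_mul_le_of_le ((norm_neg _).trans_le ((k4 _).trans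
        (mul_le_mul_of_nonneg_left b1 (by norm_num)))) k2).trans (by linarith)⟩) s
  refine ⟨fun t => ((Ψ (α t).1).1, (Ψ (α t).1).2 * (α t).2), by simp [a0, h0], fun t ht => ?_⟩
  obtain ⟨m, d⟩ := hα t ht
  exact (hg.c2_vel (h1 _).1 (hu _) (d_fst d) rfl).mul (d_snd d) (ap_inv (k _ m).1 _).symm

theorem PM.main (hg : PM g) [Nontrivial E] {r : ℕ}
    (hr : ∀ y, ∀ z ∈ (chartAt E y).target, ∀ v, covR (Gc g y) r z v = 0) {Pr : ℝ → Prop}
    (hP : Complete g Pr) (hs : ∀ x, Submodule.span ℝ {v | v ≠ 0 ∧ Pr (g x v v)} = ⊤)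
    (Pr' : ℝ → Prop) : Complete g Pr' := by
  intro γ I hγ hI _
  obtain ⟨s, hs'⟩ := hγ.2.2.1
  obtain ⟨c, J, h1, h2, h3, h4, h5, h6⟩ := hg.max (vel E γ s) (γ s, 1) s
  have iso : ∀ t ∈ J, ∀ u v, g (c t).1 ((c t).2 u) ((c t).2 v) = g (γ s) u v := fun t ht u v => by
    rw [hg.pres h1 h2 h5 h3 ht, h4]
    rfl
  obtain ⟨C, C0, hC⟩ := hg.bd_ex hr (c s)
  have cl : IsClopen J := ⟨isClosed_of_closure_subset fun t ht => by
    obtain ⟨T, T0, h⟩ := hg.unif hr hP (hg.nd (γ s)) (hs _)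
      (C := C * (1 + ‖vel E γ s‖ * (|t - s| + 1)) ^ r) (by positivity) (vel E γ s)
    obtain ⟨w, w1, w2⟩ := mem_closure_iff_nhds.1 ht _ (ball_mem_nhds t (lt_min T0 one_pos))
    have a1 := abs_lt.1 ((mem_ball_iff_norm.1 w1).trans_le (min_le_left _ _))
    have a2 : |w - t| < 1 := (mem_ball_iff_norm.1 w1).trans_le (min_le_right _ _)
    obtain ⟨d, d1, d2⟩ := h (c w) (iso w w2) (hg.bd_grow hr h2 (fun t ht =>
      ⟨h5 t ht, unit_of (hg.nd _) (iso t ht)⟩) h3 C0 hC w2 (by linarith [abs_sub_le w t s])) w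
    exact h6 d _ isOpen_Ioo ordConnected_Ioo d2 w w2 ⟨by linarith, by linarith⟩ d1
      ⟨by linarith [a1.2], by linarith [a1.1]⟩, h1⟩
  obtain rfl := cl.eq_univ ⟨s, h3⟩
  have gJ := geo_of h1 h2 ⟨s, h3⟩ h5
  refine (hI _ _ gJ (subset_univ _) fun t ht => hg.guniq hγ gJ ⟨hs', h3⟩ (by rw [h4])
    (by rw [(h5 s h3).vel_eq, h4]; rfl) ⟨ht, trivial⟩).symm

end Pool.Agent.H.MP_611141_gt
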